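import Pool.Agent.Lib.MP_7cd5ec_co.LB.Spec

/-!
# MP_7cd5ec_co, package LB: a splitting
-/

set_option autoImplicit false

namespace Pool.Agent.SplitLB

open Finset

private theorem Al_arith (s r x a : ℤ) (hs : 0 < s) (_ : 0 ≤ r) (h1 : 3 * s ≤ x)
    (h2 : x ≤ 3 * s + 3 * r) (h3 : (3 * a - x) ^ 2 ≤ 18 * r * x) (h4 : 100 * r ≤ s) :
    3 * s ≤ 4 * a ∧ 10 * a ≤ 13 * s := by
  have h5 : 100 * x ≤ 303 * s := by linarith
  have h6 : 10000 * (18 * r * x) ≤ 5454 * s ^ 2 := by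
    have e1 : (100 * r) * (100 * x) ≤ s * (303 * s) :=
      mul_le_mul h4 h5 (by linarith) hs.le
    nlinarith
  have h7 : 10000 * (3 * a - x) ^ 2 ≤ 5454 * s ^ 2 := by linarith
  constructor
  · by_contra h
    have h8 : 3 * s < 4 * (x - 3 * a) := by linarith
    have h9 : 9 * s ^ 2 < 16 * (3 * a - x) ^ 2 := by nlinarith
    nlinarith
  · by_contra h
    have h8 : 87 * s < 100 * (3 * a - x) := by linarith
    have h9 : 7569 * s ^ 2 < 10000 * (3 * a - x) ^ 2 := by nlinarith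
    nlinarith

theorem tAl (hSum : StSum) (hNum : StNum) : StAl := by
  classical
  intro q s t r S ε A hq hr hA hAc hsA htA
  obtain ⟨e1, e2, e3⟩ := hSum q S ε A
  obtain ⟨f1, f2, -⟩ := hSum q S ε Aᶜ
  have hx : 0 < al A 0 + al A 1 + al A 2 := by rw [e2]; exact hA.card_pos
  have hy : 0 < al Aᶜ 0 + al Aᶜ 1 + al Aᶜ 2 := by rw [f2]; exact hAc.card_pos
  have g1 : s * (al A 0 + al A 1 + al A 2) ≤ al A 0 * al A 1 + al A 1 * al A 2 + al A 2 * al A 0 := by
    rw [e2, ← e1, mul_comm, ← smul_eq_mul]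
    exact card_nsmul_le_sum _ _ _ hsA
  have g2 : t * (al Aᶜ 0 + al Aᶜ 1 + al Aᶜ 2) ≤
      al Aᶜ 0 * al Aᶜ 1 + al Aᶜ 1 * al Aᶜ 2 + al Aᶜ 2 * al Aᶜ 0 := by
    rw [f2, ← f1, mul_comm, ← smul_eq_mul]
    exact card_nsmul_le_sum _ _ _ htA
  obtain ⟨n1, n2, n3, n4⟩ := hNum q s t r (al A) (al Aᶜ) hq e3 hx hy g1 g2
  refine ⟨e2 ▸ n1, e2 ▸ n2, ?_, ?_⟩
  · let ex : V q → ℕ := fun v => if v ∈ A then o S ε A v - s else o S ε Aᶜ v - t
    have s1 : ∑ v ∈ A, ex v + s * A.card = ∑ v ∈ A, o S ε A v := by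
      have : s * A.card = ∑ v ∈ A, s := by rw [sum_const, smul_eq_mul, mul_comm]
      rw [this, ← sum_add_distrib]
      refine sum_congr rfl fun v hv => ?_
      show (if v ∈ A then o S ε A v - s else o S ε Aᶜ v - t) + s = o S ε A v
      rw [if_pos hv]
      have := hsA v hv
      omega
    have s2 : ∑ v ∈ Aᶜ, ex v + t * Aᶜ.card = ∑ v ∈ Aᶜ, o S ε Aᶜ v := by
      have : t * Aᶜ.card = ∑ v ∈ Aᶜ, t := by rw [sum_const, smul_eq_mul, mul_comm]
      rw [this, ← sum_add_distrib]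
      refine sum_congr rfl fun v hv => ?_
      show (if v ∈ A then o S ε A v - s else o S ε Aᶜ v - t) + t = o S ε Aᶜ v
      rw [if_neg (mem_compl.1 hv)]
      have := htA v hv
      omega
    have s3 : ∑ v ∈ A, ex v + ∑ v ∈ Aᶜ, ex v = ∑ v, ex v := sum_add_sum_compl A ex
    have s4 : ∑ v, ex v ≤ 3 * q * r := by
      rw [← s3]
      rw [e1] at s1
      rw [f1] at s2
      rw [e2, f2] at n3
      omega
    have s5 : ∑ a : Fin q, ex (0, a) ≤ ∑ v, ex v := by
      rw [Fintype.sum_prod_type, Fin.sum_univ_three]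
      omega
    have s6 := cnt_mul_le (fun a : Fin q => ex (0, a)) (60 * r)
    have s7 : cnt (fun a : Fin q => ¬ (((0, a) ∈ A → o S ε A (0, a) < s + (60 * r + 1)) ∧
        ((0, a) ∉ A → o S ε Aᶜ (0, a) < t + (60 * r + 1)))) ≤
        cnt (fun a : Fin q => 60 * r ≤ ex (0, a)) := by
      refine cnt_mono fun a ha => ?_
      show 60 * r ≤ if (0, a) ∈ A then o S ε A (0, a) - s else o S ε Aᶜ (0, a) - t
      by_cases h : ((0, a) : V q) ∈ A
      · rw [if_pos h]
        by_contra h1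
        apply ha
        exact ⟨fun _ => by omega, fun h2 => absurd h h2⟩
      · rw [if_neg h]
        by_contra h1
        apply ha
        exact ⟨fun h2 => absurd h2 h, fun _ => by omega⟩
    have s8 : cnt (fun a : Fin q => ¬ (((0, a) ∈ A → o S ε A (0, a) < s + (60 * r + 1)) ∧
        ((0, a) ∉ A → o S ε Aᶜ (0, a) < t + (60 * r + 1)))) * (60 * r) ≤ 3 * q * r :=
      ((Nat.mul_le_mul_right _ s7).trans s6).trans (s5.trans s4)
    generalize cnt (fun a : Fin q => ¬ (((0, a) ∈ A → o S ε A (0, a) < s + (60 * r + 1)) ∧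
        ((0, a) ∉ A → o S ε Aᶜ (0, a) < t + (60 * r + 1)))) = k at s8
    have s9 : (20 * k) * (3 * r) ≤ q * (3 * r) := by
      calc (20 * k) * (3 * r) = k * (60 * r) := by ring
        _ ≤ 3 * q * r := s8
        _ = q * (3 * r) := by ring
    exact Nat.le_of_mul_le_mul_right s9 (by omega)
  · intro h i
    have := Al_arith s r ((al A 0 : ℤ) + al A 1 + al A 2) (al A i) (by omega) (by omega)
      (by exact_mod_cast n1) (by exact_mod_cast n2) (n4 i) (by exact_mod_cast h)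
    exact ⟨by exact_mod_cast this.1, by exact_mod_cast this.2⟩

end Pool.Agent.SplitLB
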