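import Pool.Agent.Lib.MP_7cd5ec_co.LB.Spec

/-!
# MP_7cd5ec_co, package LB: the number of small subsets
-/

set_option autoImplicit false

namespace Pool.Agent.SplitLB

open Finset

theorem tChs : StChs := by
  classical
  intro α _ m hm hN
  have hm0 : (0 : ℝ) < m := by exact_mod_cast hm
  have hN0 : (0 : ℝ) < Fintype.card α := by
    have : 0 < Fintype.card α := lt_of_lt_of_le hm hN
    exact_mod_cast this
  have hle : (m : ℝ) / Fintype.card α ≤ 1 := by
    rw [div_le_one hN0]
    exact_mod_cast hN
  have h0 : (0 : ℝ) ≤ (m : ℝ) / Fintype.card α := by positivity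
  have e1 : ((Fintype.card α : ℝ) / m) * ((m : ℝ) / Fintype.card α) = 1 := by
    field_simp
  have h1 : (cnt (fun A : Finset α => A.card ≤ m) : ℝ) ≤
      ∑ A : Finset α, ((Fintype.card α : ℝ) / m) ^ m * ((m : ℝ) / Fintype.card α) ^ A.card := by
    rw [cnt_eq, card_eq_sum_ones]
    push_cast
    refine (sum_le_sum (f := fun _ => (1 : ℝ)) fun A hA => ?_).trans
      (sum_le_sum_of_subset_of_nonneg (filter_subset _ _) fun A _ _ => by positivity)
    rw [mem_filter] at hA
    calc (1 : ℝ) = ((Fintype.card α : ℝ) / m) ^ m * ((m : ℝ) / Fintype.card α) ^ m := by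
          rw [← mul_pow, e1, one_pow]
      _ ≤ _ := mul_le_mul_of_nonneg_left (pow_le_pow_of_le_one h0 hle hA.2) (by positivity)
  have h2 : ∑ A : Finset α, ((m : ℝ) / Fintype.card α) ^ A.card =
      ((m : ℝ) / Fintype.card α + 1) ^ Fintype.card α := by
    rw [← Fintype.sum_pow_mul_eq_add_pow]
    refine sum_congr rfl fun A _ => ?_
    rw [one_pow, mul_one]
  rw [← mul_sum, h2] at h1
  refine h1.trans ?_
  have h3 : ((m : ℝ) / Fintype.card α + 1) ^ Fintype.card α ≤ Real.exp 1 ^ m := by
    calc ((m : ℝ) / Fintype.card α + 1) ^ Fintype.card α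
        ≤ (Real.exp ((m : ℝ) / Fintype.card α)) ^ Fintype.card α :=
          pow_le_pow_left₀ (by positivity) (Real.add_one_le_exp _) _
      _ = Real.exp 1 ^ m := by
          rw [← Real.exp_nat_mul, ← Real.exp_nat_mul]
          congr 1
          field_simp
  calc ((Fintype.card α : ℝ) / m) ^ m * ((m : ℝ) / Fintype.card α + 1) ^ Fintype.card α
      ≤ ((Fintype.card α : ℝ) / m) ^ m * Real.exp 1 ^ m :=
        mul_le_mul_of_nonneg_left h3 (by positivity)
    _ = (Real.exp 1 * Fintype.card α / m) ^ m := by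
        rw [← mul_pow]
        congr 1
        ring

end Pool.Agent.SplitLB
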