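import Pool.Agent.Lib.MP_7cd5ec_co.LB.Spec

set_option autoImplicit false

/-!
# MP_7cd5ec_co, package LB: the digraph has outdegree `q` (helper60)
-/

namespace Pool.Agent.SplitLB

open Finset

private theorem Dg_ne1 (i : Fin 3) : i + 1 ≠ i := by
  revert i
  decide

private theorem Dg_ne2 (i : Fin 3) : i + 2 ≠ i := by
  revert i
  decide

private theorem Dg_ne12 (i : Fin 3) : i + 1 ≠ i + 2 := by
  revert i
  decide

private theorem Dg_add (i : Fin 3) : i + 2 + 1 = i := by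
  revert i
  decide

private theorem Dg_part {q : ℕ} (S : TS q) (ε : Co q) (i : Fin 3) (τ : Fin q × Fin q) :
    (nx S ε i τ).1 ≠ i := by
  unfold nx
  split_ifs
  · exact Dg_ne1 i
  · exact Dg_ne2 i

private theorem Dg_inj {q : ℕ} (S : TS q) (ε : Co q) (i : Fin 3) (τ τ' : Fin q × Fin q)
    (h1 : S.c i τ = S.c i τ') (h2 : nx S ε i τ = nx S ε i τ') : τ = τ' := by
  unfold nx at h2
  by_cases h : ε τ = true
  · by_cases h' : ε τ' = true
    · rw [if_pos h, if_pos h', Prod.mk.injEq] at h2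
      exact (S.bij i).1 (Prod.ext h1 h2.2)
    · rw [if_pos h, if_neg h', Prod.mk.injEq] at h2
      exact absurd h2.1 (Dg_ne12 i)
  · by_cases h' : ε τ' = true
    · rw [if_neg h, if_pos h', Prod.mk.injEq] at h2
      exact absurd h2.1.symm (Dg_ne12 i)
    · rw [if_neg h, if_neg h', Prod.mk.injEq] at h2
      apply (S.bij (i + 2)).1
      simp only [Dg_add]
      exact Prod.ext h2.2 h1

private theorem Dg_cnt {q : ℕ} (S : TS q) (ε : Co q) (v : V q) (A : Finset (V q)) :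
    cnt (fun w => w ∈ A ∧ E S ε v w) = o S ε A v := by
  classical
  unfold o
  rw [cnt_eq, cnt_eq]
  symm
  refine card_bij (fun τ _ => nx S ε v.1 τ) ?_ ?_ ?_
  · intro τ hτ
    rw [mem_filter] at hτ ⊢
    exact ⟨mem_univ _, hτ.2.2, τ, hτ.2.1, rfl⟩
  · intro τ hτ τ' hτ' h
    rw [mem_filter] at hτ hτ'
    exact Dg_inj S ε v.1 τ τ' (hτ.2.1.trans hτ'.2.1.symm) h
  · intro w hw
    rw [mem_filter] at hw
    obtain ⟨-, hwA, τ, h1, h2⟩ := hw
    refine ⟨τ, ?_, h2⟩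
    rw [mem_filter]
    refine ⟨mem_univ _, h1, ?_⟩
    rw [h2]
    exact hwA

private theorem Dg_univ (hRd : StRd) {q : ℕ} (S : TS q) (ε : Co q) (v : V q) :
    o S ε univ v = q := by
  obtain ⟨i, a⟩ := v
  obtain ⟨e, -, -, h, -, -⟩ := hRd q S i
  rw [h ε univ a, cnt_congr (Q := fun _ : Fin q => True) fun b => ?_, cnt_true, Fintype.card_fin]
  cases ε (e (a, b)) <;> simp

/-- **Dg** -/
theorem tDg (hRd : StRd) : StDg := by
  intro q S ε
  refine ⟨?_, ?_, ?_, ?_⟩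
  · rintro v ⟨τ, -, h2⟩
    exact Dg_part S ε v.1 τ (congrArg Prod.fst h2)
  · intro v
    refine Eq.trans ?_ (Dg_univ hRd S ε v)
    rw [← Dg_cnt]
    exact cnt_congr fun w => ⟨fun h => ⟨mem_univ _, h⟩, fun h => h.2⟩
  · exact fun v A => Dg_cnt S ε v A
  · intro v A
    refine Eq.trans ?_ (Dg_univ hRd S ε v)
    unfold o
    rw [cnt_split (fun τ => S.c v.1 τ = v.2 ∧ nx S ε v.1 τ ∈ univ) fun τ => nx S ε v.1 τ ∈ A]
    congr 1
    · exact cnt_congr fun τ => ⟨fun h => ⟨⟨h.1, mem_univ _⟩, h.2⟩, fun h => ⟨h.1.1, h.2⟩⟩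
    · exact cnt_congr fun τ => ⟨fun h => ⟨⟨h.1, mem_univ _⟩, mem_compl.1 h.2⟩,
        fun h => ⟨h.1.1, mem_compl.2 h.2⟩⟩

end Pool.Agent.SplitLB
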