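import Pool.Agent.Lib.MP_7cd5ec_co.LB.Spec

/-! Package LB, module Fin: the lower bound. -/

set_option autoImplicit false

namespace Pool.Agent.SplitLB

open Finset

theorem tFin (hTSx : StTSx) (hTr : StTr) (hI : StI) (hII : StII) (hKn : StKn) : StFin := by
  obtain ⟨c1, hc1, hI⟩ := hI
  obtain ⟨K0, c2, hK0, hc2, hII⟩ := hII
  set L : ℝ := Real.sqrt (Real.log (2 * K0)) + 1 with hL
  have hL0 : 0 < L := by positivity
  refine ⟨min c2 (c1 / L), lt_min hc2 (div_pos hc1 hL0), fun s t hs hst => ?_⟩
  set c : ℝ := min c2 (c1 / L) with hc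
  have hc0 : 0 < c := lt_min hc2 (div_pos hc1 hL0)
  set Q : ℝ := Real.sqrt (s * Real.log (2 * t / s)) with hQ
  have hQ0 : 0 ≤ Q := Real.sqrt_nonneg _
  set M : ℝ := min (s : ℝ) Q with hM
  have hM0 : 0 ≤ M := le_min (Nat.cast_nonneg s) hQ0
  have hcM0 : 0 ≤ c * M := mul_nonneg hc0.le hM0
  set r : ℕ := ⌊c * M⌋₊ with hr
  have hr1 : c * M < r + 1 := Nat.lt_floor_add_one _
  have hr2 : (r : ℝ) ≤ c * M := Nat.floor_le hcM0
  rcases Nat.eq_zero_or_pos r with h0 | h0
  · refine ⟨s + t, hKn s t hs (hs.trans hst), ?_⟩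
    rw [h0] at hr1
    push_cast at hr1 ⊢
    linarith
  · refine ⟨s + t + r, ?_, ?_⟩
    · obtain ⟨S⟩ := hTSx (s + t + r) (by omega)
      suffices h : ∃ ε : Co (s + t + r), ¬ Spl S ε s t by
        obtain ⟨ε, hε⟩ := h
        exact hTr _ S ε s t (by omega) hε
      rcases Nat.lt_or_ge t (K0 * s) with h1 | h1
      · refine hI (s + t + r) s t r S rfl hs hst h0 ?_
        have s0 : (0 : ℝ) < s := by exact_mod_cast hs
        have t0 : (0 : ℝ) < t := by exact_mod_cast hs.trans hst
        have h2 : (2 * t / s : ℝ) ≤ 2 * K0 := by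
          rw [div_le_iff₀ s0]
          have : (t : ℝ) ≤ K0 * s := by exact_mod_cast h1.le
          nlinarith
        have h3 : Real.log (2 * t / s) ≤ Real.log (2 * K0) :=
          Real.log_le_log (by positivity) h2
        have h4 : Q ≤ Real.sqrt s * Real.sqrt (Real.log (2 * K0)) := by
          rw [hQ, ← Real.sqrt_mul s0.le]
          exact Real.sqrt_le_sqrt (mul_le_mul_of_nonneg_left h3 s0.le)
        calc (r : ℝ) ≤ c * M := hr2
          _ ≤ (c1 / L) * (Real.sqrt s * Real.sqrt (Real.log (2 * K0))) :=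
              mul_le_mul (min_le_right _ _) ((min_le_right _ _).trans h4) hM0
                (div_pos hc1 hL0).le
          _ ≤ (c1 / L) * (Real.sqrt s * L) := by
              refine mul_le_mul_of_nonneg_left (mul_le_mul_of_nonneg_left ?_
                (Real.sqrt_nonneg _)) (div_pos hc1 hL0).le
              rw [hL]
              linarith
          _ = c1 * Real.sqrt s := by
              field_simp
      · refine hII (s + t + r) s t r S rfl hs h1 h0 ?_ ?_
        · exact hr2.trans (mul_le_mul (min_le_left _ _) (min_le_left _ _) hM0 hc2.le)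
        · exact hr2.trans (mul_le_mul (min_le_left _ _) (min_le_right _ _) hM0 hc2.le)
    · push_cast
      linarith

end Pool.Agent.SplitLB
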