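import Pool.Agent.Lib.MP_7cd5ec_co.LB.Spec

/-!
# MP_7cd5ec_co, package LB: the numbers `ff` and `hh`
-/

set_option autoImplicit false

namespace Pool.Agent.SplitLB

open Finset

private theorem HF_add {α : Type} [Fintype α] (P Q : α → Prop) :
    2 * cnt (fun x => P x ∧ Q x) + cnt (fun x => ¬ (P x ↔ Q x)) = cnt P + cnt Q := by
  have h1 := cnt_split P Q
  have h2 := cnt_split Q P
  have h3 := cnt_split (fun x => ¬ (P x ↔ Q x)) P
  have e1 : cnt (fun x => Q x ∧ P x) = cnt (fun x => P x ∧ Q x) :=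
    cnt_congr fun x => and_comm
  have e2 : cnt (fun x => ¬ (P x ↔ Q x) ∧ P x) = cnt (fun x => P x ∧ ¬ Q x) :=
    cnt_congr fun x => by tauto
  have e3 : cnt (fun x => ¬ (P x ↔ Q x) ∧ ¬ P x) = cnt (fun x => Q x ∧ ¬ P x) :=
    cnt_congr fun x => by tauto
  omega

private theorem HF_prod {α β : Type} [Fintype α] [Fintype β] (P : α → Prop) (Q : β → Prop) :
    cnt (fun p : α × β => P p.1 ∧ Q p.2) = cnt P * cnt Q := by
  classical
  rw [cnt_eq, cnt_eq, cnt_eq, ← card_product]
  congr 1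
  ext p
  simp only [mem_filter, mem_univ, true_and, mem_product]

private theorem HF_fib {α β : Type} [Fintype α] [Fintype β] (f : α → β) (P : α → Prop) :
    ∑ b, cnt (fun x => f x = b ∧ P x) = cnt P := by
  classical
  simp only [cnt_eq]
  rw [card_eq_sum_card_fiberwise (f := f) (t := univ) (fun _ _ => mem_coe.2 (mem_univ _))]
  refine sum_congr rfl fun b _ => ?_
  congr 1
  ext x
  simp only [mem_filter, mem_univ, true_and]
  exact and_comm

theorem tHF (hRd : StRd) : StHF := by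
  intro q S A i
  obtain ⟨e, -, h2, -, h4, h5⟩ := hRd q S i
  refine ⟨?_, ?_, ?_⟩
  · intro a
    rw [h4, h5, HF_add]
    have h6 : cnt (fun b => (i + 2, S.c (i + 2) (e (a, b))) ∈ A) = al A (i + 2) :=
      cnt_equiv (Equiv.ofBijective _ (h2 a)) fun b => (i + 2, b) ∈ A
    rw [h6]
    rfl
  · have h6 : ∑ a, ff S A i a =
        cnt fun τ => (i + 1, S.c (i + 1) τ) ∈ A ∧ (i + 2, S.c (i + 2) τ) ∈ A :=
      HF_fib (S.c i) _
    have h7 := cnt_equiv (Equiv.ofBijective _ (S.bij (i + 1)))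
      (fun p : Fin q × Fin q => (i + 1, p.1) ∈ A ∧ (i + 1 + 1, p.2) ∈ A)
    rw [HF_prod (fun x : Fin q => (i + 1, x) ∈ A) (fun y : Fin q => (i + 1 + 1, y) ∈ A)] at h7
    have h8 : i + 1 + 1 = i + 2 := by
      rw [add_assoc]
      rfl
    rw [h6]
    simp only [Equiv.ofBijective_apply] at h7
    rw [h8] at h7
    exact h7
  · intro a
    refine cnt_congr fun τ => ?_
    rw [mem_compl, mem_compl]
    tauto

end Pool.Agent.SplitLB
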