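import Pool.Agent.Lib.MP_7cd5ec_co.LB.Spec

/-!
# MP_7cd5ec_co, package LB: many vertices with large `hh`
-/

set_option autoImplicit false

namespace Pool.Agent.SplitLB

open Finset

/-- the arithmetic at the end of `HL` -/
private theorem HL_num (q s x y k : ℤ) (hs : 1 ≤ s) (hq : 2 * s ≤ q) (hx1 : 3 * s ≤ 4 * x)
    (hx2 : 10 * x ≤ 13 * s) (hy1 : 3 * s ≤ 4 * y) (hy2 : 10 * y ≤ 13 * s)
    (h : 10 * (q * (x + y) - 2 * (x * y)) ≤ 10 * ((x + y) * k) + s * q) : q ≤ 10 * k := by
  by_contra hk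
  push Not at hk
  have h1 : 4 * (x * y) ≤ (x + y) * (x + y) := by nlinarith [sq_nonneg (x - y)]
  have h2 : 10 * ((x + y) * (x + y)) ≤ 13 * (q * (x + y)) := by
    have e : 10 * (x + y) ≤ 13 * q := by linarith
    have := mul_le_mul_of_nonneg_right e (show 0 ≤ x + y by linarith)
    linarith
  have h3 : 3 * (s * q) ≤ 2 * (q * (x + y)) := by
    have e : 3 * s ≤ 2 * (x + y) := by linarith
    have := mul_le_mul_of_nonneg_right e (show 0 ≤ q by linarith)
    linarith
  have h4 : (x + y) * (10 * k) ≤ (x + y) * q :=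
    mul_le_mul_of_nonneg_left hk.le (by linarith)
  have h5 : 0 < q * (x + y) := mul_pos (by linarith) (by linarith)
  linarith

/-- **HL** -/
theorem tHL (hHF : StHF) : StHL := by
  classical
  intro q s S A hs hq hA
  obtain ⟨e1, e2, -⟩ := hHF q S A 0
  have h01 : (0 : Fin 3) + 1 = 1 := rfl
  have h02 : (0 : Fin 3) + 2 = 2 := rfl
  rw [h01, h02] at e2
  rw [h01, h02] at e1
  have e3 : 2 * ∑ a, ff S A 0 a + ∑ a, hh S A 0 a = q * (al A 1 + al A 2) := by
    rw [mul_sum, ← sum_add_distrib, sum_congr rfl fun a _ => e1 a]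
    simp
  rw [e2] at e3
  have e4 : 10 * ∑ a, hh S A 0 a ≤
      10 * ((al A 1 + al A 2) * cnt (fun a : Fin q => s ≤ 10 * hh S A 0 a)) + s * q := by
    rw [cnt_eq]
    have e5 : ∑ a : Fin q, 10 * hh S A 0 a ≤
        ∑ a : Fin q, ((if s ≤ 10 * hh S A 0 a then 10 * (al A 1 + al A 2) else 0) + s) := by
      refine sum_le_sum fun a _ => ?_
      by_cases ha : s ≤ 10 * hh S A 0 a
      · rw [if_pos ha]
        have := e1 a
        omega
      · rw [if_neg ha]
        omega
    rw [sum_add_distrib, ← sum_filter, sum_const, sum_const, card_univ, Fintype.card_fin,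
      ← mul_sum] at e5
    refine e5.trans (le_of_eq ?_)
    simp only [smul_eq_mul]
    ring
  generalize cnt (fun a : Fin q => s ≤ 10 * hh S A 0 a) = k at e4 ⊢
  obtain ⟨h11, h12⟩ := hA 1
  obtain ⟨h21, h22⟩ := hA 2
  have key := HL_num (q : ℤ) s (al A 1 : ℤ) (al A 2 : ℤ) (k : ℤ) (by exact_mod_cast hs)
    (by exact_mod_cast hq) (by exact_mod_cast h11) (by exact_mod_cast h12)
    (by exact_mod_cast h21) (by exact_mod_cast h22) ?_
  · exact_mod_cast key
  · zify at e3 e4
    linarith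

end Pool.Agent.SplitLB
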