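import Pool.Agent.Lib.MP_7cd5ec_co.LB.Spec

/-!
# The balanced case
-/

set_option autoImplicit false

namespace Pool.Agent.SplitLB

open Finset

/-- the side of the vertex `(0,a)` -/
private noncomputable def I_U {q : ℕ} (A : Finset (V q)) (a : Fin q) : Finset (V q) :=
  open Classical in if ((0 : Fin 3), a) ∈ A then A else Aᶜ

/-- the lower bound for the vertex `(0,a)` -/
private noncomputable def I_m {q : ℕ} (s t : ℕ) (A : Finset (V q)) (a : Fin q) : ℕ :=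
  open Classical in if ((0 : Fin 3), a) ∈ A then s else t

/-- every coin assignment with a splitting lies in one of the sets `M(A,N)` -/
private theorem I_cover (hAl : StAl) (hHL : StHL) (q s t r : ℕ) (S : TS q)
    (hq : q = s + t + r) (hs : 1 ≤ s) (hst : s ≤ t) (hr : 1 ≤ r) (hrs : 100 * r ≤ s) (ε : Co q)
    (h : Spl S ε s t) :
    ∃ (A : Finset (V q)) (N : Finset (Fin q)), q ≤ 20 * N.card ∧
      (∀ a ∈ N, s ≤ 10 * hh S A 0 a) ∧
      ∀ a ∈ N, I_m s t A a ≤ o S ε (I_U A a) (0, a) ∧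
        o S ε (I_U A a) (0, a) < I_m s t A a + (60 * r + 1) := by
  classical
  obtain ⟨A, h1, h2, h3, h4⟩ := h
  obtain ⟨-, -, g3, g4⟩ := hAl q s t r S ε A hq hr h1 h2 h3 h4
  have g5 := g4 hrs
  have g6 := hHL q s S A hs (by omega) g5
  set P : Fin q → Prop := fun a => ((0, a) ∈ A → o S ε A (0, a) < s + (60 * r + 1)) ∧
    ((0, a) ∉ A → o S ε Aᶜ (0, a) < t + (60 * r + 1)) with hP
  have g3' : 20 * cnt (fun a => ¬ P a) ≤ q := g3
  refine ⟨A, univ.filter (fun a => s ≤ 10 * hh S A 0 a ∧ P a), ?_, ?_, ?_⟩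
  · have e1 : (univ.filter (fun a => s ≤ 10 * hh S A 0 a ∧ P a)).card =
        cnt (fun a => s ≤ 10 * hh S A 0 a ∧ P a) := (cnt_eq _).symm
    have e2 := cnt_split (fun a : Fin q => s ≤ 10 * hh S A 0 a) P
    have e3 : cnt (fun a => s ≤ 10 * hh S A 0 a ∧ ¬ P a) ≤ cnt (fun a => ¬ P a) :=
      cnt_mono fun a h => h.2
    rw [e1]
    omega
  · intro a ha
    rw [mem_filter] at ha
    exact ha.2.1
  · intro a ha
    rw [mem_filter] at ha
    have hPa := ha.2.2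
    unfold I_U I_m
    by_cases hA : ((0 : Fin 3), a) ∈ A
    · rw [if_pos hA, if_pos hA]
      exact ⟨h3 _ hA, hPa.1 hA⟩
    · rw [if_neg hA, if_neg hA]
      exact ⟨h4 _ (by rw [mem_compl]; exact hA), hPa.2 hA⟩

private theorem I_beta (s r : ℕ) (hr : 1 ≤ r)
    (hrs : (r : ℝ) ≤ (1 / 2 : ℝ) ^ 100 * Real.sqrt s) :
    100 * r ≤ s ∧ 1 ≤ s / 16 ∧
      ((60 * r + 1 : ℕ) : ℝ) / Real.sqrt ((s / 16 : ℕ) : ℝ) ≤ (1 / 2 : ℝ) ^ 91 := by
  have hr' : (1 : ℝ) ≤ r := by exact_mod_cast hr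
  have hq0 : 0 ≤ Real.sqrt s := Real.sqrt_nonneg _
  have h1 : (2 : ℝ) ^ 100 * r ≤ Real.sqrt s := by
    have h2 : (2 : ℝ) ^ 100 * ((1 / 2 : ℝ) ^ 100 * Real.sqrt s) = Real.sqrt s := by
      rw [← mul_assoc, ← mul_pow]
      norm_num
    calc (2 : ℝ) ^ 100 * r ≤ (2 : ℝ) ^ 100 * ((1 / 2 : ℝ) ^ 100 * Real.sqrt s) :=
          mul_le_mul_of_nonneg_left hrs (by positivity)
      _ = Real.sqrt s := h2
  have h1' : (1000 : ℝ) * r ≤ Real.sqrt s := by
    refine le_trans ?_ h1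
    refine mul_le_mul_of_nonneg_right ?_ (by positivity)
    norm_num
  have hss : Real.sqrt s * Real.sqrt s = s := Real.mul_self_sqrt (by positivity)
  have h2 : (1000 : ℝ) * r ≤ s := by nlinarith
  have h2' : 1000 * r ≤ s := by exact_mod_cast h2
  have h3 : (s : ℝ) / 64 ≤ ((s / 16 : ℕ) : ℝ) := by
    have h4 : s ≤ 64 * (s / 16) := by omega
    have h5 : (s : ℝ) ≤ 64 * ((s / 16 : ℕ) : ℝ) := by exact_mod_cast h4
    linarith
  refine ⟨by omega, by omega, ?_⟩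
  have h6 : Real.sqrt s / 8 ≤ Real.sqrt ((s / 16 : ℕ) : ℝ) := by
    refine Real.le_sqrt_of_sq_le ?_
    refine le_trans (le_of_eq ?_) h3
    rw [div_pow, Real.sq_sqrt (by positivity)]
    norm_num
  have hpos : 0 < Real.sqrt s / 8 := by
    have : (0 : ℝ) < 1000 * r := by positivity
    linarith
  have h7 : 0 < Real.sqrt ((s / 16 : ℕ) : ℝ) := lt_of_lt_of_le hpos h6
  rw [div_le_iff₀ h7]
  refine le_trans ?_ (mul_le_mul_of_nonneg_left h6 (by positivity))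
  push_cast
  have h8 : (60 : ℝ) * r + 1 ≤ 61 * r := by linarith
  refine h8.trans ?_
  have h9 : (61 : ℝ) * r ≤ (1 / 2 : ℝ) ^ 91 * ((2 : ℝ) ^ 100 * r / 8) := by
    have h10 : (1 / 2 : ℝ) ^ 91 * ((2 : ℝ) ^ 100 * (r : ℝ) / 8) = 64 * (r : ℝ) := by
      have h11 : (1 / 2 : ℝ) ^ 91 * (2 : ℝ) ^ 100 = 512 := by norm_num
      linear_combination (r : ℝ) / 8 * h11
    rw [h10]
    linarith
  refine h9.trans (mul_le_mul_of_nonneg_left ?_ (by positivity))
  linarith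

theorem tI (hHF : StHF) (hWin : StWin) (hAl : StAl) (hHL : StHL) : StI := by
  refine ⟨(1 / 2 : ℝ) ^ 100, by positivity, ?_⟩
  intro q s t r S hq hs hst hr hrs
  obtain ⟨hb1, hb2, hb3⟩ := I_beta s r hr hrs
  by_contra hcon
  push Not at hcon
  classical
  set I : Finset (Finset (V q) × Finset (Fin q)) := univ.filter fun z =>
    q ≤ 20 * z.2.card ∧ ∀ a ∈ z.2, s ≤ 10 * hh S z.1 0 a with hI
  set R : Finset (V q) × Finset (Fin q) → Co q → Prop := fun z ε => ∀ a ∈ z.2,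
    I_m s t z.1 a ≤ o S ε (I_U z.1 a) (0, a) ∧
      o S ε (I_U z.1 a) (0, a) < I_m s t z.1 a + (60 * r + 1) with hR
  have hcov : (Fintype.card (Co q) : ℝ) ≤ ∑ z ∈ I, (cnt (R z) : ℝ) := by
    have h1 : Fintype.card (Co q) ≤ ∑ z ∈ I, cnt (R z) := by
      rw [← cnt_true]
      refine le_trans (cnt_mono ?_) (cnt_exists_le I R)
      intro ε _
      obtain ⟨A, N, hN, hA, h⟩ := I_cover hAl hHL q s t r S hq hs hst hr hb1 ε (hcon ε)
      refine ⟨(A, N), ?_, h⟩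
      rw [hI, mem_filter]
      exact ⟨mem_univ _, hN, hA⟩
    exact_mod_cast h1
  have hterm : ∀ z ∈ I, (cnt (R z) : ℝ) ≤ 2 ^ (q * q) * (1 / 2 : ℝ) ^ (4 * q + 1) := by
    rintro ⟨A, N⟩ hz
    rw [hI, mem_filter] at hz
    obtain ⟨-, hN, hA⟩ := hz
    change q ≤ 20 * N.card at hN
    change ∀ a ∈ N, s ≤ 10 * hh S A 0 a at hA
    have h1 := hWin q S 0 (I_U A) N (I_m s t A) (60 * r + 1) (s / 16) hb2 (by
      intro a ha
      have h2 : hh S (I_U A a) 0 a = hh S A 0 a := by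
        unfold I_U
        split_ifs
        · rfl
        · exact (hHF q S A 0).2.2 a
      have h3 := hA a ha
      rw [h2]
      omega)
    refine h1.trans (mul_le_mul_of_nonneg_left ?_ (by positivity))
    calc (((60 * r + 1 : ℕ) : ℝ) / Real.sqrt ((s / 16 : ℕ) : ℝ)) ^ N.card ≤
        ((1 / 2 : ℝ) ^ 91) ^ N.card := pow_le_pow_left₀ (by positivity) hb3 _
      _ = (1 / 2 : ℝ) ^ (91 * N.card) := by rw [← pow_mul]
      _ ≤ (1 / 2 : ℝ) ^ (4 * q + 1) :=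
        pow_le_pow_of_le_one (by norm_num) (by norm_num) (by omega)
  have hIc : (I.card : ℝ) ≤ 2 ^ (4 * q) := by
    have h1 : I.card ≤ 2 ^ (4 * q) := by
      refine (card_le_univ _).trans (le_of_eq ?_)
      rw [Fintype.card_prod, Fintype.card_finset, Fintype.card_finset, Fintype.card_prod,
        Fintype.card_fin, Fintype.card_fin, ← pow_add]
      congr 1
      ring
    exact_mod_cast h1
  have hcard : (Fintype.card (Co q) : ℝ) = 2 ^ (q * q) := by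
    rw [Fintype.card_fun, Fintype.card_bool, Fintype.card_prod, Fintype.card_fin]
    push_cast
    rfl
  have h2 : (0 : ℝ) < 2 ^ (q * q) := by positivity
  have h3 : ∑ z ∈ I, (cnt (R z) : ℝ) ≤ I.card * (2 ^ (q * q) * (1 / 2 : ℝ) ^ (4 * q + 1)) := by
    rw [← nsmul_eq_mul]
    exact sum_le_card_nsmul _ _ _ hterm
  have h4 : (I.card : ℝ) * (2 ^ (q * q) * (1 / 2 : ℝ) ^ (4 * q + 1)) ≤
      2 ^ (4 * q) * (2 ^ (q * q) * (1 / 2 : ℝ) ^ (4 * q + 1)) :=
    mul_le_mul_of_nonneg_right hIc (by positivity)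
  have h5 : (2 : ℝ) ^ (4 * q) * (2 ^ (q * q) * (1 / 2 : ℝ) ^ (4 * q + 1)) = 2 ^ (q * q) / 2 := by
    have h6 : (2 : ℝ) ^ (4 * q) * (1 / 2 : ℝ) ^ (4 * q) = 1 := by
      rw [← mul_pow]
      norm_num
    rw [pow_succ]
    linear_combination (2 : ℝ) ^ (q * q) / 2 * h6
  rw [hcard] at hcov
  linarith

end Pool.Agent.SplitLB
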