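import Pool.Agent.Lib.MP_7cd5ec_co.LB.Spec

/-!
# MP_7cd5ec_co, package LB: independent rows
-/

set_option autoImplicit false

namespace Pool.Agent.SplitLB

open Finset

private def Ind_equiv (q : ℕ) (e : Fin q × Fin q ≃ Fin q × Fin q) :
    Co q ≃ (Fin q → Fin q → Bool) where
  toFun ε a b := ε (e (a, b))
  invFun G τ := G (e.symm τ).1 (e.symm τ).2
  left_inv ε := by
    funext τ
    simp
  right_inv G := by
    funext a b
    simp

/-- Independent rows. -/
theorem tInd : StInd := by
  intro q e Φ
  classical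
  have h1 : cnt (fun ε : Co q => ∀ a, Φ a (fun b => ε (e (a, b)))) =
      cnt (fun G : Fin q → Fin q → Bool => ∀ a, Φ a (G a)) :=
    cnt_equiv (Ind_equiv q e) (fun G : Fin q → Fin q → Bool => ∀ a, Φ a (G a))
  rw [h1, cnt_eq]
  simp only [cnt_eq]
  rw [← Fintype.card_piFinset]
  refine congrArg Finset.card ?_
  ext G
  simp only [mem_filter, mem_univ, true_and, Fintype.mem_piFinset]

end Pool.Agent.SplitLB
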