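import Pool.Agent.Lib.MP_7cd5ec_co.LB.Spec

/-!
# MP_7cd5ec_co, package LB, module Kn: the complete digraph
-/

set_option autoImplicit false

namespace Pool.Agent.SplitLB

open Finset

theorem Kn_part {n s : ℕ} (hs : 1 ≤ s) (A : Set (Fin n)) (hA : A.Nonempty)
    (h : ∀ v ∈ A, s ≤ {w : Fin n | w ∈ A ∧ v ≠ w}.ncard) : s + 1 ≤ A.ncard := by
  obtain ⟨v, hv⟩ := hA
  have h1 := h v hv
  have h2 : {w : Fin n | w ∈ A ∧ v ≠ w} = A \ {v} := by
    ext w
    simp only [Set.mem_setOf_eq, Set.mem_diff, Set.mem_singleton_iff]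
    constructor
    · rintro ⟨h3, h4⟩
      exact ⟨h3, fun h5 => h4 h5.symm⟩
    · rintro ⟨h3, h4⟩
      exact ⟨h3, fun h5 => h4 h5.symm⟩
  rw [h2, Set.ncard_diff_singleton_of_mem hv] at h1
  omega

theorem tKn : StKn := by
  intro s t hs ht
  refine ⟨s + t + 1, fun v w => v ≠ w, by omega, fun v h => h rfl, fun v => ?_, ?_⟩
  · have h1 : {w : Fin (s + t + 1) | v ≠ w} = ({v} : Set (Fin (s + t + 1)))ᶜ := by
      ext w
      simp only [Set.mem_setOf_eq, Set.mem_compl_iff, Set.mem_singleton_iff]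
      exact ⟨fun h h' => h h'.symm, fun h h' => h h'.symm⟩
    have h2 := Set.ncard_add_ncard_compl ({v} : Set (Fin (s + t + 1)))
    rw [Set.ncard_singleton, Nat.card_eq_fintype_card, Fintype.card_fin] at h2
    rw [h1]
    omega
  · rintro ⟨A, hA, hB, h1, h2⟩
    have h3 := Kn_part hs A hA h1
    have h4 := Kn_part ht Aᶜ hB h2
    have h5 := Set.ncard_add_ncard_compl A
    rw [Nat.card_eq_fintype_card, Fintype.card_fin] at h5
    omega

end Pool.Agent.SplitLB
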