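import Pool.Agent.Lib.MP_7cd5ec_co.LB.Spec

/-!
# MP_7cd5ec_co, package LB: the real numbers of the unbalanced case
-/

set_option autoImplicit false

namespace Pool.Agent.SplitLB

open Finset

private theorem Nm2_growth (C0 L : ℝ) (h0 : 1 ≤ C0) (hL : 4 * C0 + 200 ≤ L) :
    4 * L + 10 ≤ Real.exp (-(C0 + L / 4)) * Real.exp L / 4 := by
  rw [← Real.exp_add]
  have h1 : Real.exp (L / 2) ≤ Real.exp (-(C0 + L / 4) + L) := by
    apply Real.exp_le_exp.2
    linarith
  have h2 : 1 + L / 2 + (L / 2) ^ 2 / 2 ≤ Real.exp (L / 2) :=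
    Real.quadratic_le_exp_of_nonneg (by linarith)
  nlinarith

/-- the estimate of the union bound -/
theorem tNm2 : StNm2 := by
  intro C0 hC0
  obtain ⟨K0, hK0⟩ := exists_nat_ge (Real.exp (4 * C0 + 200))
  have hC0' : 0 < C0 := by linarith
  have hK24 : (24 : ℝ) ≤ K0 := by
    have := Real.add_one_le_exp (4 * C0 + 200)
    linarith
  refine ⟨K0, 1 / (128 * C0), by exact_mod_cast hK24, by positivity, ?_, ?_⟩
  · apply one_div_le_one_div_of_le (by norm_num)
    linarith
  intro q s t r n hq hs hKt hr hrs hrt hqn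
  have hsR : (1 : ℝ) ≤ s := by exact_mod_cast hs
  have hsp : (0 : ℝ) < s := by linarith
  have hKtR : (K0 : ℝ) * s ≤ t := by exact_mod_cast hKt
  have hrR : (1 : ℝ) ≤ r := by exact_mod_cast hr
  have htR : (s : ℝ) ≤ t := by nlinarith
  have htp : (0 : ℝ) < t := by linarith
  have hc2 : 1 / (128 * C0) ≤ 1 := by
    rw [div_le_one (by positivity)]
    linarith
  have hrs' : (r : ℝ) ≤ s := by
    calc (r : ℝ) ≤ 1 / (128 * C0) * s := hrs
      _ ≤ 1 * s := mul_le_mul_of_nonneg_right hc2 hsp.le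
      _ = s := one_mul _
  set L : ℝ := Real.log (2 * t / s) with hLdef
  have hexpL : Real.exp L = 2 * t / s := Real.exp_log (by positivity)
  have hL : 4 * C0 + 200 ≤ L := by
    rw [hLdef, Real.le_log_iff_exp_le (by positivity), le_div_iff₀ hsp]
    calc Real.exp (4 * C0 + 200) * s ≤ K0 * s := mul_le_mul_of_nonneg_right hK0 hsp.le
      _ ≤ t := hKtR
      _ ≤ 2 * t := by linarith
  have hL0 : 0 < L := by linarith
  -- the exponent
  set X : ℝ := C0 * (1 + ((r + 1 : ℕ) : ℝ) ^ 2 / s) with hX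
  have hr2 : (r : ℝ) ^ 2 ≤ (1 / (128 * C0)) ^ 2 * (s * L) := by
    have h1 : (r : ℝ) ^ 2 ≤ (1 / (128 * C0) * Real.sqrt (s * L)) ^ 2 :=
      pow_le_pow_left₀ (by positivity) hrt 2
    rwa [mul_pow, Real.sq_sqrt (by positivity)] at h1
  have hXle : X ≤ C0 + L / 4 := by
    have h1 : (((r + 1 : ℕ) : ℝ)) ^ 2 ≤ 4 * (r : ℝ) ^ 2 := by
      push_cast
      nlinarith
    have h2 : (((r + 1 : ℕ) : ℝ)) ^ 2 / s ≤ 4 * (1 / (128 * C0)) ^ 2 * L := by
      rw [div_le_iff₀ hsp]
      calc (((r + 1 : ℕ) : ℝ)) ^ 2 ≤ 4 * (r : ℝ) ^ 2 := h1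
        _ ≤ 4 * ((1 / (128 * C0)) ^ 2 * (s * L)) := by linarith
        _ = 4 * (1 / (128 * C0)) ^ 2 * L * s := by ring
    have h3 : C0 * (4 * (1 / (128 * C0)) ^ 2 * L) ≤ L / 4 := by
      have e : C0 * (4 * (1 / (128 * C0)) ^ 2 * L) = L / (4096 * C0) := by
        field_simp
        norm_num
      rw [e]
      exact div_le_div_of_nonneg_left hL0.le (by norm_num) (by linarith)
    have h4 : C0 * ((((r + 1 : ℕ) : ℝ)) ^ 2 / s) ≤ C0 * (4 * (1 / (128 * C0)) ^ 2 * L) :=
      mul_le_mul_of_nonneg_left h2 hC0'.le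
    rw [hX]
    linarith
  have hX0 : 0 ≤ X := by
    rw [hX]
    positivity
  set p : ℝ := Real.exp (-X) with hp
  have hp0 : 0 < p := Real.exp_pos _
  have hp1 : p ≤ 1 := by
    rw [hp, Real.exp_le_one_iff]
    linarith
  have hpge : Real.exp (-(C0 + L / 4)) ≤ p := Real.exp_le_exp.2 (by linarith)
  -- the two factors
  have hq3 : (q : ℝ) ≤ 3 * t := by
    rw [hq]
    push_cast
    linarith
  have hqt : (t : ℝ) ≤ q := by
    rw [hq]
    push_cast
    linarith
  have hqn' : (q : ℝ) ≤ 2 * n := by exact_mod_cast hqn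
  have hA : (Real.exp 1 * (3 * q) / (4 * s)) ^ (4 * s) ≤ Real.exp (4 * s * (L + 2)) := by
    have h1 : Real.exp 1 * (3 * q) / (4 * s) ≤ Real.exp (L + 2) := by
      have e2 : Real.exp (L + 2) = 2 * t / s * (Real.exp 1 * Real.exp 1) := by
        rw [Real.exp_add, hexpL, ← Real.exp_add]
        norm_num
      have e3 : (2 : ℝ) ≤ Real.exp 1 := by
        have := Real.add_one_le_exp (1 : ℝ)
        linarith
      rw [e2, div_le_iff₀ (by positivity)]
      have e4 : 2 * (t : ℝ) / s * (Real.exp 1 * Real.exp 1) * (4 * s) =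
          8 * t * (Real.exp 1 * Real.exp 1) := by
        field_simp
        ring
      rw [e4]
      have e5 : (0 : ℝ) < Real.exp 1 := Real.exp_pos 1
      calc Real.exp 1 * (3 * q) ≤ Real.exp 1 * (9 * t) :=
            mul_le_mul_of_nonneg_left (by linarith) e5.le
        _ ≤ Real.exp 1 * (16 * t) := mul_le_mul_of_nonneg_left (by linarith) e5.le
        _ = 8 * t * (Real.exp 1 * 2) := by ring
        _ ≤ 8 * t * (Real.exp 1 * Real.exp 1) := by
          apply mul_le_mul_of_nonneg_left _ (by positivity)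
          exact mul_le_mul_of_nonneg_left e3 e5.le
    calc (Real.exp 1 * (3 * q) / (4 * s)) ^ (4 * s) ≤ Real.exp (L + 2) ^ (4 * s) :=
          pow_le_pow_left₀ (by positivity) h1 _
      _ = Real.exp (4 * s * (L + 2)) := by
        rw [← Real.exp_nat_mul]
        push_cast
        rfl
  have hB : (1 - p) ^ n ≤ Real.exp (-(s * (Real.exp (-(C0 + L / 4)) * Real.exp L / 4))) := by
    have h1 : (1 - p) ^ n ≤ Real.exp (-p) ^ n :=
      pow_le_pow_left₀ (by linarith) (Real.one_sub_le_exp_neg p) n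
    refine h1.trans ?_
    rw [← Real.exp_nat_mul]
    apply Real.exp_le_exp.2
    have h2 : (s : ℝ) * (Real.exp (-(C0 + L / 4)) * Real.exp L / 4) =
        Real.exp (-(C0 + L / 4)) * (t / 2) := by
      rw [hexpL]
      field_simp
      ring
    rw [h2]
    have h3 : Real.exp (-(C0 + L / 4)) * (t / 2) ≤ p * n :=
      mul_le_mul hpge (by linarith) (by positivity) hp0.le
    linarith
  have hgrow := Nm2_growth C0 L hC0 hL
  have hfin : 4 * s * (L + 2) + -(s * (Real.exp (-(C0 + L / 4)) * Real.exp L / 4)) ≤ -2 := by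
    nlinarith [mul_le_mul_of_nonneg_left hgrow hsp.le]
  have h3 : (3 : ℝ) * Real.exp (-2) < 1 := by
    rw [Real.exp_neg, ← div_eq_mul_inv, div_lt_one (Real.exp_pos 2)]
    have := Real.add_one_lt_exp (show (2 : ℝ) ≠ 0 by norm_num)
    linarith
  calc 3 * ((Real.exp 1 * (3 * q) / (4 * s)) ^ (4 * s) * (1 - p) ^ n)
      ≤ 3 * (Real.exp (4 * s * (L + 2)) *
        Real.exp (-(s * (Real.exp (-(C0 + L / 4)) * Real.exp L / 4)))) := by
        apply mul_le_mul_of_nonneg_left _ (by norm_num)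
        exact mul_le_mul hA hB (pow_nonneg (by linarith) n) (Real.exp_pos _).le
    _ = 3 * Real.exp (4 * s * (L + 2) + -(s * (Real.exp (-(C0 + L / 4)) * Real.exp L / 4))) := by
        rw [Real.exp_add]
    _ ≤ 3 * Real.exp (-2) := by
        apply mul_le_mul_of_nonneg_left _ (by norm_num)
        exact Real.exp_le_exp.2 hfin
    _ < 1 := h3

end Pool.Agent.SplitLB
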