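import Pool.Agent.Lib.MP_7cd5ec_co.LB.Spec

/-!
# MP_7cd5ec_co, package LB: the numbers of the vertices of a splitting in the three parts
-/

set_option autoImplicit false

namespace Pool.Agent.SplitLB

open Finset

private theorem Num_ge (s a0 a1 a2 : ℤ) (h0 : 0 < a0 + a1 + a2)
    (h : s * (a0 + a1 + a2) ≤ a0 * a1 + a1 * a2 + a2 * a0) : 3 * s ≤ a0 + a1 + a2 := by
  have h1 : 3 * (a0 * a1 + a1 * a2 + a2 * a0) ≤ (a0 + a1 + a2) ^ 2 := by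
    nlinarith [sq_nonneg (a0 - a1), sq_nonneg (a1 - a2), sq_nonneg (a2 - a0)]
  have h2 : 3 * s * (a0 + a1 + a2) ≤ (a0 + a1 + a2) * (a0 + a1 + a2) := by nlinarith
  exact le_of_mul_le_mul_right h2 h0

private theorem Num_sum (q s t r a0 a1 a2 b0 b1 b2 : ℤ) (hq : q = s + t + r)
    (h0 : a0 + b0 = q) (h1 : a1 + b1 = q) (h2 : a2 + b2 = q) (ha : 0 < a0 + a1 + a2)
    (hb : 0 < b0 + b1 + b2)
    (hs : 3 * s ≤ a0 + a1 + a2) (ht : 3 * t ≤ b0 + b1 + b2) :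
    a0 * a1 + a1 * a2 + a2 * a0 + (b0 * b1 + b1 * b2 + b2 * b0) ≤
      s * (a0 + a1 + a2) + t * (b0 + b1 + b2) + 3 * q * r := by
  have e1 : 3 * (a0 * a1 + a1 * a2 + a2 * a0) ≤ (a0 + a1 + a2) ^ 2 := by
    nlinarith [sq_nonneg (a0 - a1), sq_nonneg (a1 - a2), sq_nonneg (a2 - a0)]
  have e2 : 3 * (b0 * b1 + b1 * b2 + b2 * b0) ≤ (b0 + b1 + b2) ^ 2 := by
    nlinarith [sq_nonneg (b0 - b1), sq_nonneg (b1 - b2), sq_nonneg (b2 - b0)]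
  have e3 : (a0 + a1 + a2) + (b0 + b1 + b2) = 3 * q := by linarith
  set x := a0 + a1 + a2 with hx
  set y := b0 + b1 + b2 with hy
  have f1 : x ^ 2 ≤ x * (3 * s + 3 * r) := by
    rw [sq]; exact mul_le_mul_of_nonneg_left (by linarith) ha.le
  have f2 : y ^ 2 ≤ y * (3 * t + 3 * r) := by
    rw [sq]; exact mul_le_mul_of_nonneg_left (by linarith) hb.le
  have f3 : 3 * r * (x + y) = 3 * r * (3 * q) := by rw [e3]
  nlinarith

private theorem Num_dev (s r a0 a1 a2 : ℤ) (ha : 0 < a0 + a1 + a2)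
    (h : s * (a0 + a1 + a2) ≤ a0 * a1 + a1 * a2 + a2 * a0) (hr : a0 + a1 + a2 ≤ 3 * s + 3 * r) :
    (3 * a0 - (a0 + a1 + a2)) ^ 2 + (3 * a1 - (a0 + a1 + a2)) ^ 2 +
      (3 * a2 - (a0 + a1 + a2)) ^ 2 ≤ 18 * r * (a0 + a1 + a2) := by
  have e1 : (3 * a0 - (a0 + a1 + a2)) ^ 2 + (3 * a1 - (a0 + a1 + a2)) ^ 2 +
      (3 * a2 - (a0 + a1 + a2)) ^ 2 =
      6 * (a0 + a1 + a2) ^ 2 - 18 * (a0 * a1 + a1 * a2 + a2 * a0) := by ring
  rw [e1]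
  set x := a0 + a1 + a2 with hx
  have f1 : x ^ 2 ≤ x * (3 * s + 3 * r) := by
    rw [sq]; exact mul_le_mul_of_nonneg_left (by linarith) ha.le
  nlinarith

/-- arithmetic of a splitting -/
theorem tNum : StNum := by
  intro q s t r a b hq hab ha hb hs ht
  have h0 := hab 0
  have h1 := hab 1
  have h2 := hab 2
  have hsZ : (s : ℤ) * (a 0 + a 1 + a 2) ≤ a 0 * a 1 + a 1 * a 2 + a 2 * a 0 := by exact_mod_cast hs
  have htZ : (t : ℤ) * (b 0 + b 1 + b 2) ≤ b 0 * b 1 + b 1 * b 2 + b 2 * b 0 := by exact_mod_cast ht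
  have haZ : (0 : ℤ) < a 0 + a 1 + a 2 := by exact_mod_cast ha
  have hbZ : (0 : ℤ) < b 0 + b 1 + b 2 := by exact_mod_cast hb
  have k1 := Num_ge s (a 0) (a 1) (a 2) haZ hsZ
  have k2 := Num_ge t (b 0) (b 1) (b 2) hbZ htZ
  have h1' : 3 * s ≤ a 0 + a 1 + a 2 := by exact_mod_cast k1
  have h2' : a 0 + a 1 + a 2 ≤ 3 * s + 3 * r := by
    have : 3 * t ≤ b 0 + b 1 + b 2 := by exact_mod_cast k2
    omega
  refine ⟨h1', h2', ?_, ?_⟩
  · have k3 := Num_sum q s t r (a 0) (a 1) (a 2) (b 0) (b 1) (b 2) (by exact_mod_cast hq)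
      (by exact_mod_cast h0) (by exact_mod_cast h1) (by exact_mod_cast h2) haZ hbZ k1 k2
    exact_mod_cast k3
  · have k4 := Num_dev s r (a 0) (a 1) (a 2) haZ hsZ (by exact_mod_cast h2')
    intro i
    have p0 := sq_nonneg (3 * (a 0 : ℤ) - (a 0 + a 1 + a 2))
    have p1 := sq_nonneg (3 * (a 1 : ℤ) - (a 0 + a 1 + a 2))
    have p2 := sq_nonneg (3 * (a 2 : ℤ) - (a 0 + a 1 + a 2))
    fin_cases i
    · show (3 * (a 0 : ℤ) - (a 0 + a 1 + a 2)) ^ 2 ≤ _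
      linarith
    · show (3 * (a 1 : ℤ) - (a 0 + a 1 + a 2)) ^ 2 ≤ _
      linarith
    · show (3 * (a 2 : ℤ) - (a 0 + a 1 + a 2)) ^ 2 ≤ _
      linarith

end Pool.Agent.SplitLB
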