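import Pool.Agent.Lib.MP_7cd5ec_co.LB.Spec

/-!
# MP_7cd5ec_co, package LB: the law of one row
-/

set_option autoImplicit false

namespace Pool.Agent.SplitLB

open Finset

private theorem RL_pow (q : ℕ) (P : Fin q → Prop) [DecidablePred P] (c : Polynomial ℕ) :
    ∏ b, (if P b then c else 1) = c ^ cnt P := by
  rw [cnt_eq, Finset.prod_ite, Finset.prod_const, Finset.prod_const_one, mul_one]

open Classical in
private theorem RL_fac (a b : Prop) :
    ((if a then Polynomial.X else 1) + (if b then Polynomial.X else 1) : Polynomial ℕ) =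
      (if (a ↔ b) then Polynomial.C 2 else 1) * ((if a ∧ b then Polynomial.X else 1) *
        (if ¬ (a ↔ b) then Polynomial.X + 1 else 1)) := by
  by_cases ha : a <;> by_cases hb : b
  · simp only [ha, hb, if_true, and_self, not_true, if_false, mul_one]
    rw [Polynomial.C_ofNat, two_mul]
  · simp [ha, hb]
  · simp [ha, hb, add_comm]
  · simp only [ha, hb, if_true, if_false, and_self, not_true, mul_one]
    rw [Polynomial.C_ofNat]
    norm_num

/-- the generating function of one row -/
private theorem RL_gen (q : ℕ) (P Q : Fin q → Prop) :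
    (∑ g : Fin q → Bool, (Polynomial.X : Polynomial ℕ) ^
      cnt (fun b => (g b = true ∧ P b) ∨ (g b = false ∧ Q b))) =
      Polynomial.C (2 ^ (q - cnt (fun b => ¬ (P b ↔ Q b)))) *
        (Polynomial.X ^ cnt (fun b => P b ∧ Q b) *
          (Polynomial.X + 1) ^ cnt (fun b => ¬ (P b ↔ Q b))) := by
  classical
  have h1 : ∀ g : Fin q → Bool, (Polynomial.X : Polynomial ℕ) ^
      cnt (fun b => (g b = true ∧ P b) ∨ (g b = false ∧ Q b)) =
      ∏ b, (fun (b : Fin q) (x : Bool) => if (x = true ∧ P b) ∨ (x = false ∧ Q b) then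
        (Polynomial.X : Polynomial ℕ) else 1) b (g b) := fun g => by
    rw [← RL_pow]
  rw [Finset.sum_congr rfl fun g _ => h1 g, ← Fintype.piFinset_univ,
    ← Finset.prod_univ_sum (fun _ : Fin q => (univ : Finset Bool))
      (fun (b : Fin q) (x : Bool) => if (x = true ∧ P b) ∨ (x = false ∧ Q b) then
        (Polynomial.X : Polynomial ℕ) else 1)]
  have h2 : ∀ b : Fin q, (∑ x : Bool, if (x = true ∧ P b) ∨ (x = false ∧ Q b) then
      (Polynomial.X : Polynomial ℕ) else 1) =
      (if (P b ↔ Q b) then Polynomial.C 2 else 1) * ((if P b ∧ Q b then Polynomial.X else 1) *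
        (if ¬ (P b ↔ Q b) then Polynomial.X + 1 else 1)) := by
    intro b
    rw [Fintype.sum_bool, ← RL_fac]
    simp
  rw [Finset.prod_congr rfl fun b _ => h2 b, Finset.prod_mul_distrib, Finset.prod_mul_distrib,
    RL_pow, RL_pow, RL_pow, ← Polynomial.C_pow]
  congr 3
  have h3 := cnt_add_not (fun b : Fin q => (P b ↔ Q b))
  rw [Fintype.card_fin] at h3
  omega

theorem tRL : StRL := by
  intro q P Q m
  classical
  have h1 := congrArg (fun p => Polynomial.coeff p m) (RL_gen q P Q)
  simp only [Polynomial.finsetSum_coeff, Polynomial.coeff_C_mul, Polynomial.coeff_X_pow_mul',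
    Polynomial.coeff_X_add_one_pow, Polynomial.coeff_X_pow, Nat.cast_id] at h1
  rw [← h1, cnt_eq, Finset.card_filter]
  exact Finset.sum_congr rfl fun g _ => if_congr eq_comm rfl rfl

end Pool.Agent.SplitLB
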