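import Pool.Agent.Lib.MP_7cd5ec_co.LB.Spec

/-! # MP_7cd5ec_co, LB: RT (the lower tail of one row) -/

set_option autoImplicit false

namespace Pool.Agent.SplitLB

open Finset

private theorem RT_sum {α : Type} [Fintype α] (N : α → ℕ) (k f : ℕ) (s : Finset ℕ)
    (hs : ∀ j ∈ s, k < f + j) :
    ∑ j ∈ s, cnt (fun g => N g = f + j) ≤ cnt (fun g => ¬ N g ≤ k) := by
  classical
  simp only [cnt_eq]
  rw [← card_biUnion]
  · refine card_le_card fun g hg => ?_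
    rw [mem_biUnion] at hg
    obtain ⟨j, hj, hg⟩ := hg
    rw [mem_filter] at hg ⊢
    refine ⟨hg.1, ?_⟩
    rw [hg.2, not_le]
    exact hs j hj
  · intro j _ j' _ hjj
    rw [Function.onFun, disjoint_filter]
    intro g _ h1 h2
    exact hjj (by omega)

theorem tRT (hRL : StRL) : StRT := by
  classical
  intro C0 hC0 hT q P Q k x h0 hh0 hle hx hk
  obtain ⟨f, hf⟩ : ∃ f, f = cnt (fun b => P b ∧ Q b) := ⟨_, rfl⟩
  obtain ⟨h, hh⟩ : ∃ h, h = cnt (fun b => ¬ (P b ↔ Q b)) := ⟨_, rfl⟩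
  rw [← hh] at hle hx
  rw [← hf, ← hh] at hk
  have hq : h ≤ q := by
    rw [hh]
    refine (cnt_le _).trans ?_
    rw [Fintype.card_fin]
  set N : (Fin q → Bool) → ℕ :=
    fun g => cnt (fun b => (g b = true ∧ P b) ∨ (g b = false ∧ Q b)) with hN
  have h1 : cnt (fun g => N g ≤ k) + cnt (fun g => ¬ N g ≤ k) = 2 ^ q := by
    rw [cnt_add_not]
    simp
  set s := (range (h + 1)).filter (fun j => h + 2 * x ≤ 2 * j) with hs
  have h2 := RT_sum N k f s (fun j hj => by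
    rw [hs, mem_filter] at hj
    have := hj.2
    omega)
  have h3 : ∀ j, cnt (fun g => N g = f + j) = 2 ^ (q - h) * h.choose j := by
    intro j
    have h4 := hRL q P Q (f + j)
    rw [← hf, ← hh, if_pos (Nat.le_add_right f j), Nat.add_sub_cancel_left] at h4
    exact h4
  rw [sum_congr rfl fun j _ => h3 j, ← mul_sum] at h2
  have h5 := hT h x (hh0.trans hle) hx
  have hh0' : (0 : ℝ) < h0 := by exact_mod_cast hh0
  have hle' : (h0 : ℝ) ≤ h := by exact_mod_cast hle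
  have h6 : Real.exp (-(C0 * (1 + (x : ℝ) ^ 2 / h0))) ≤ Real.exp (-(C0 * (1 + (x : ℝ) ^ 2 / h))) := by
    apply Real.exp_le_exp.2
    apply neg_le_neg
    apply mul_le_mul_of_nonneg_left _ (by linarith)
    have : (x : ℝ) ^ 2 / h ≤ (x : ℝ) ^ 2 / h0 := div_le_div_of_nonneg_left (by positivity) hh0' hle'
    linarith
  have h7 : (2 : ℝ) ^ q * Real.exp (-(C0 * (1 + (x : ℝ) ^ 2 / h0))) ≤
      ((cnt (fun g => ¬ N g ≤ k) : ℕ) : ℝ) := by
    have h8 : (2 : ℝ) ^ q = 2 ^ (q - h) * 2 ^ h := by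
      rw [← pow_add]
      congr 1
      omega
    calc (2 : ℝ) ^ q * Real.exp (-(C0 * (1 + (x : ℝ) ^ 2 / h0)))
        ≤ 2 ^ q * Real.exp (-(C0 * (1 + (x : ℝ) ^ 2 / h))) :=
          mul_le_mul_of_nonneg_left h6 (by positivity)
      _ = 2 ^ (q - h) * (Real.exp (-(C0 * (1 + (x : ℝ) ^ 2 / h))) * 2 ^ h) := by
          rw [h8]
          ring
      _ ≤ 2 ^ (q - h) * ((∑ j ∈ s, h.choose j : ℕ) : ℝ) :=
          mul_le_mul_of_nonneg_left h5 (by positivity)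
      _ = ((2 ^ (q - h) * ∑ j ∈ s, h.choose j : ℕ) : ℝ) := by push_cast; ring
      _ ≤ ((cnt (fun g => ¬ N g ≤ k) : ℕ) : ℝ) := by exact_mod_cast h2
  have h9 : ((cnt (fun g => N g ≤ k) : ℕ) : ℝ) + ((cnt (fun g => ¬ N g ≤ k) : ℕ) : ℝ) = 2 ^ q := by
    exact_mod_cast h1
  show ((cnt (fun g => N g ≤ k) : ℕ) : ℝ) ≤ _
  linarith

end Pool.Agent.SplitLB
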