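import Pool.Agent.Lib.MP_7cd5ec_co.LB.Spec

/-!
# MP_7cd5ec_co, package LB: the law of one row in a window (module RW)
-/

set_option autoImplicit false

namespace Pool.Agent.SplitLB

open Finset

private theorem RW_choose (hCtr : StCtr) (h k : ℕ) :
    (h.choose k : ℝ) * Real.sqrt h ≤ 2 ^ h := by
  have h1 : ((h.choose k : ℝ)) ^ 2 * h ≤ 4 ^ h := by exact_mod_cast hCtr h k
  have h2 : ((h.choose k : ℝ) * Real.sqrt h) ^ 2 ≤ (2 ^ h) ^ 2 := by
    rw [mul_pow, Real.sq_sqrt (Nat.cast_nonneg h), ← pow_mul, mul_comm h 2, pow_mul]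
    norm_num
    exact h1
  exact le_of_sq_le_sq h2 (by positivity)

private theorem RW_one (hRL : StRL) (hCtr : StCtr) (q : ℕ) (P Q : Fin q → Prop) (m : ℕ)
    (h1 : 1 ≤ cnt (fun b => ¬ (P b ↔ Q b))) :
    (cnt (fun g : Fin q → Bool =>
      cnt (fun b => (g b = true ∧ P b) ∨ (g b = false ∧ Q b)) = m) : ℝ) ≤
    2 ^ q / Real.sqrt (cnt (fun b => ¬ (P b ↔ Q b))) := by
  rw [hRL q P Q m]
  have hq : cnt (fun b => ¬ (P b ↔ Q b)) ≤ q := by
    have := cnt_le (fun b => ¬ (P b ↔ Q b))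
    rwa [Fintype.card_fin] at this
  generalize cnt (fun b => ¬ (P b ↔ Q b)) = h at h1 hq ⊢
  generalize cnt (fun b => P b ∧ Q b) = f
  have hs : 0 < Real.sqrt (h : ℝ) := Real.sqrt_pos.2 (by exact_mod_cast h1)
  rw [le_div_iff₀ hs]
  have e : (2 : ℝ) ^ q = 2 ^ (q - h) * 2 ^ h := by
    rw [← pow_add, Nat.sub_add_cancel hq]
  rw [e]
  split_ifs with hf
  · push_cast
    rw [mul_assoc]
    exact mul_le_mul_of_nonneg_left (RW_choose hCtr h _) (by positivity)
  · push_cast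
    rw [mul_zero, zero_mul]
    positivity

theorem tRW (hRL : StRL) (hCtr : StCtr) : StRW := by
  intro q P Q m w h1
  have hle : cnt (fun g : Fin q → Bool =>
      m ≤ cnt (fun b => (g b = true ∧ P b) ∨ (g b = false ∧ Q b)) ∧
      cnt (fun b => (g b = true ∧ P b) ∨ (g b = false ∧ Q b)) < m + w) ≤
      ∑ i ∈ Finset.Ico m (m + w), cnt (fun g : Fin q → Bool =>
        cnt (fun b => (g b = true ∧ P b) ∨ (g b = false ∧ Q b)) = i) := by
    refine le_trans (cnt_mono ?_) (cnt_exists_le (Finset.Ico m (m + w))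
      (fun i (g : Fin q → Bool) =>
        cnt (fun b => (g b = true ∧ P b) ∨ (g b = false ∧ Q b)) = i))
    intro g hg
    exact ⟨_, Finset.mem_Ico.2 hg, rfl⟩
  calc _ ≤ ((∑ i ∈ Finset.Ico m (m + w), cnt (fun g : Fin q → Bool =>
        cnt (fun b => (g b = true ∧ P b) ∨ (g b = false ∧ Q b)) = i) : ℕ) : ℝ) := by
        exact_mod_cast hle
    _ = ∑ i ∈ Finset.Ico m (m + w), (cnt (fun g : Fin q → Bool =>
        cnt (fun b => (g b = true ∧ P b) ∨ (g b = false ∧ Q b)) = i) : ℝ) := by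
        push_cast
        rfl
    _ ≤ ∑ _i ∈ Finset.Ico m (m + w), 2 ^ q / Real.sqrt (cnt (fun b => ¬ (P b ↔ Q b))) :=
        Finset.sum_le_sum fun i _ => RW_one hRL hCtr q P Q i h1
    _ = 2 ^ q * (w / Real.sqrt (cnt (fun b => ¬ (P b ↔ Q b)))) := by
        rw [Finset.sum_const, Nat.card_Ico, Nat.add_sub_cancel_left, nsmul_eq_mul]
        ring

end Pool.Agent.SplitLB
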