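import Pool.Agent.Lib.MP_7cd5ec_co.LB.Spec

set_option autoImplicit false

/-!
# MP_7cd5ec_co, LB/Rd: the rows
-/

namespace Pool.Agent.SplitLB

open Finset

/-- the elements of a product with given first coordinate -/
theorem Rd_fib {α β : Type} [Fintype α] [Fintype β] (a : α) (Q : α × β → Prop) :
    cnt (fun x : α × β => x.1 = a ∧ Q x) = cnt fun b => Q (a, b) := by
  classical
  have h := sum_cnt (α := α) (γ := β) fun x b => x = a ∧ Q (x, b)
  rw [show (fun x : α × β => x.1 = a ∧ Q x) = fun p : α × β => p.1 = a ∧ Q (p.1, p.2) from rfl,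
    ← h, Finset.sum_eq_single a]
  · exact cnt_congr fun b => by simp
  · intro x _ hx
    rw [cnt_eq, Finset.card_eq_zero, Finset.filter_eq_empty_iff]
    intro b _ hb
    exact hx hb.1
  · intro h1
    exact absurd (Finset.mem_univ _) h1

theorem tRd : StRd := by
  intro q S i
  obtain ⟨e, he⟩ : ∃ e : Fin q × Fin q ≃ Fin q × Fin q,
      e = (Equiv.ofBijective _ (S.bij i)).symm := ⟨_, rfl⟩
  have h1 : ∀ a b, S.c i (e (a, b)) = a ∧ S.c (i + 1) (e (a, b)) = b := by
    intro a b
    have h2 := (Equiv.ofBijective _ (S.bij i)).apply_symm_apply (a, b)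
    rw [← he] at h2
    exact ⟨congrArg Prod.fst h2, congrArg Prod.snd h2⟩
  have h1' : ∀ x : Fin q × Fin q, S.c i (e x) = x.1 := fun x => (h1 x.1 x.2).1
  -- counting the triangles at a vertex
  have hc : ∀ (a : Fin q) (R : Fin q × Fin q → Prop),
      cnt (fun τ => S.c i τ = a ∧ R τ) = cnt fun b => R (e (a, b)) := by
    intro a R
    rw [← cnt_equiv e, ← Rd_fib a fun x => R (e x)]
    exact cnt_congr fun x => by rw [h1' x]
  refine ⟨e, h1, ?_, ?_, ?_, ?_⟩
  · intro a
    rw [← Finite.injective_iff_bijective]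
    intro b b' hb
    have hi : i + 2 + 1 = i := by fin_cases i <;> rfl
    have h3 : e (a, b) = e (a, b') := by
      apply (S.bij (i + 2)).1
      change (S.c (i + 2) (e (a, b)), S.c (i + 2 + 1) (e (a, b))) =
        (S.c (i + 2) (e (a, b')), S.c (i + 2 + 1) (e (a, b')))
      rw [hi, (h1 a b).1, (h1 a b').1]
      exact Prod.ext hb rfl
    exact congrArg Prod.snd (e.injective h3)
  · intro ε U a
    unfold o
    rw [show (fun τ => S.c ((i, a) : V q).1 τ = ((i, a) : V q).2 ∧ nx S ε ((i, a) : V q).1 τ ∈ U) =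
      fun τ => S.c i τ = a ∧ nx S ε i τ ∈ U from rfl, hc]
    refine cnt_congr fun b => ?_
    unfold nx
    rw [(h1 a b).2]
    cases hε : ε (e (a, b))
    · simp
    · simp
  · intro U a
    unfold ff
    rw [hc a fun τ => (i + 1, S.c (i + 1) τ) ∈ U ∧ (i + 2, S.c (i + 2) τ) ∈ U]
    exact cnt_congr fun b => by rw [(h1 a b).2]
  · intro U a
    unfold hh
    rw [hc a fun τ => ¬ ((i + 1, S.c (i + 1) τ) ∈ U ↔ (i + 2, S.c (i + 2) τ) ∈ U)]
    exact cnt_congr fun b => by rw [(h1 a b).2]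

end Pool.Agent.SplitLB
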