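import Pool.Agent.Lib.MP_7cd5ec_co.LB.Spec

/-!
# MP_7cd5ec_co, package LB: the number of edges inside of a set
-/

set_option autoImplicit false

namespace Pool.Agent.SplitLB

open Finset

private theorem sum_cntv {α : Type} [Fintype α] (P : α → Prop) [DecidablePred P] :
    cnt P = ∑ x, if P x then 1 else 0 := by
  rw [cnt_eq, card_filter]

/-- The sum of the outdegrees inside of `A`, as a sum over the triangles. -/
private theorem sum_one {q : ℕ} (S : TS q) (ε : Co q) (A : Finset (V q)) :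
    ∑ v ∈ A, o S ε A v =
      ∑ i : Fin 3, ∑ τ : Fin q × Fin q, if (i, S.c i τ) ∈ A ∧ nx S ε i τ ∈ A then 1 else 0 := by
  classical
  have h1 : ∑ v ∈ A, o S ε A v = ∑ v : V q, if v ∈ A then o S ε A v else 0 := by
    rw [← Finset.sum_filter]
    congr 1
    ext v
    simp
  rw [h1, Fintype.sum_prod_type]
  refine Finset.sum_congr rfl fun i _ => ?_
  have h2 : ∀ a : Fin q, (if (i, a) ∈ A then o S ε A (i, a) else 0) =
      ∑ τ : Fin q × Fin q, if a = S.c i τ then
        (if (i, S.c i τ) ∈ A ∧ nx S ε i τ ∈ A then 1 else 0) else 0 := by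
    intro a
    by_cases ha : (i, a) ∈ A
    · rw [if_pos ha]
      unfold o
      rw [sum_cntv]
      refine Finset.sum_congr rfl fun τ _ => ?_
      by_cases h3 : a = S.c i τ
      · subst h3
        rw [if_pos rfl]
        by_cases h4 : nx S ε i τ ∈ A
        · rw [if_pos ⟨rfl, h4⟩, if_pos ⟨ha, h4⟩]
        · rw [if_neg (fun h => h4 h.2), if_neg (fun h => h4 h.2)]
      · rw [if_neg h3, if_neg (fun h => h3 h.1.symm)]
    · rw [if_neg ha]
      symm
      refine Finset.sum_eq_zero fun τ _ => ?_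
      by_cases h3 : a = S.c i τ
      · subst h3
        rw [if_pos rfl, if_neg (fun h => ha h.1)]
      · rw [if_neg h3]
  rw [Finset.sum_congr rfl fun a _ => h2 a, Finset.sum_comm]
  refine Finset.sum_congr rfl fun τ _ => ?_
  rw [Finset.sum_ite_eq' Finset.univ (S.c i τ)]
  simp

private theorem sum_pair {q : ℕ} (S : TS q) (A : Finset (V q)) (i : Fin 3) :
    (∑ τ : Fin q × Fin q, if (i, S.c i τ) ∈ A ∧ (i + 1, S.c (i + 1) τ) ∈ A then 1 else 0) =
      al A i * al A (i + 1) := by
  classical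
  have h1 : (∑ τ : Fin q × Fin q,
      if (i, S.c i τ) ∈ A ∧ (i + 1, S.c (i + 1) τ) ∈ A then 1 else 0) =
      ∑ x : Fin q × Fin q, if (i, x.1) ∈ A ∧ (i + 1, x.2) ∈ A then 1 else 0 :=
    Equiv.sum_comp (Equiv.ofBijective _ (S.bij i))
      (fun x : Fin q × Fin q => if (i, x.1) ∈ A ∧ (i + 1, x.2) ∈ A then 1 else 0)
  rw [h1, Fintype.sum_prod_type]
  unfold al
  rw [sum_cntv, sum_cntv, Finset.sum_mul_sum]
  refine Finset.sum_congr rfl fun a _ => Finset.sum_congr rfl fun b _ => ?_
  by_cases ha : (i, a) ∈ A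
  · by_cases hb : (i + 1, b) ∈ A
    · rw [if_pos ⟨ha, hb⟩, if_pos ha, if_pos hb, mul_one]
    · rw [if_neg (fun h => hb h.2), if_neg hb, mul_zero]
  · rw [if_neg (fun h => ha h.1), if_neg ha, zero_mul]

theorem tSum : StSum := by
  classical
  intro q S ε A
  refine ⟨?_, ?_, ?_⟩
  · rw [sum_one, Finset.sum_comm]
    have h1 : ∀ τ : Fin q × Fin q,
        (∑ i : Fin 3, if (i, S.c i τ) ∈ A ∧ nx S ε i τ ∈ A then 1 else 0) =
        ∑ i : Fin 3, if (i, S.c i τ) ∈ A ∧ (i + 1, S.c (i + 1) τ) ∈ A then 1 else 0 := by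
      intro τ
      by_cases hε : ε τ = true
      · refine Finset.sum_congr rfl fun i _ => ?_
        have h2 : nx S ε i τ = (i + 1, S.c (i + 1) τ) := by
          unfold nx
          rw [if_pos hε]
        rw [h2]
      · have h2 : ∀ i, nx S ε i τ = (i + 2, S.c (i + 2) τ) := by
          intro i
          unfold nx
          rw [if_neg hε]
        simp only [h2]
        rw [Fin.sum_univ_three, Fin.sum_univ_three]
        have e1 : (0 : Fin 3) + 2 = 2 := rfl
        have e2 : (1 : Fin 3) + 2 = 0 := rfl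
        have e3 : (2 : Fin 3) + 2 = 1 := rfl
        have e4 : (0 : Fin 3) + 1 = 1 := rfl
        have e5 : (1 : Fin 3) + 1 = 2 := rfl
        have e6 : (2 : Fin 3) + 1 = 0 := rfl
        rw [e1, e2, e3, e4, e5, e6]
        by_cases k0 : ((0 : Fin 3), S.c 0 τ) ∈ A <;> by_cases k1 : ((1 : Fin 3), S.c 1 τ) ∈ A <;>
          by_cases k2 : ((2 : Fin 3), S.c 2 τ) ∈ A <;> simp [k0, k1, k2]
    rw [Finset.sum_congr rfl fun τ _ => h1 τ, Finset.sum_comm,
      Finset.sum_congr rfl fun i _ => sum_pair S A i, Fin.sum_univ_three]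
    rfl
  · have h1 : A.card = ∑ v : V q, if v ∈ A then 1 else 0 := by
      rw [← Finset.card_filter]
      congr 1
      ext v
      simp
    rw [h1, Fintype.sum_prod_type, Fin.sum_univ_three]
    unfold al
    rw [sum_cntv, sum_cntv, sum_cntv]
  · intro i
    have h1 := cnt_add_not (fun a : Fin q => (i, a) ∈ A)
    rw [Fintype.card_fin] at h1
    unfold al
    rw [cnt_congr (P := fun a : Fin q => (i, a) ∈ Aᶜ) (Q := fun a => ¬ (i, a) ∈ A)
      (fun a => Finset.mem_compl)]
    exact h1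

end Pool.Agent.SplitLB
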