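import Pool.Agent.Lib.MP_7cd5ec_co.LB.Spec

/-! # MP_7cd5ec_co, LB: TSx (a decomposition of the complete tripartite graph into triangles) -/

set_option autoImplicit false

namespace Pool.Agent.SplitLB

open Finset

private def TSx_c (q : ℕ) [NeZero q] (i : Fin 3) (τ : Fin q × Fin q) : Fin q :=
  if i = 0 then τ.1 else if i = 1 then τ.2 else -τ.1 - τ.2

private theorem TSx_i : ∀ i : Fin 3, i = 0 ∨ i = 1 ∨ i = 2 := by decide

theorem tTSx : StTSx := by
  intro q hq
  haveI : NeZero q := ⟨by omega⟩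
  refine ⟨⟨TSx_c q, ?_⟩⟩
  intro i
  rw [← Finite.injective_iff_bijective]
  rintro ⟨x, y⟩ ⟨x', y'⟩ h
  rw [Prod.mk.injEq] at h
  obtain ⟨h1, h2⟩ := h
  have hi : i = 0 ∨ i = 1 ∨ i = 2 := TSx_i i
  rcases hi with rfl | rfl | rfl
  · have e1 : x = x' := h1
    have e2 : y = y' := h2
    rw [e1, e2]
  · have e1 : y = y' := h1
    have e2 : -x - y = -x' - y' := h2
    rw [e1] at e2
    rw [e1, neg_inj.1 (sub_left_injective e2)]
  · have e1 : -x - y = -x' - y' := h1
    have e2 : x = x' := h2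
    rw [e2] at e1
    rw [e2, sub_right_injective e1]

end Pool.Agent.SplitLB
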