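import Pool.Agent.Lib.MP_7cd5ec_co.LB.Spec

/-!
# MP_7cd5ec_co, package LB, module Tail: the upper tail of the binomial distribution
-/

set_option autoImplicit false

namespace Pool.Agent.SplitLB

open Finset

theorem Tail_central (n : ℕ) (hn : 1 ≤ n) : 16 ^ n ≤ n.centralBinom ^ 2 * (4 * n) := by
  induction n, hn using Nat.le_induction with
  | base => decide
  | succ n hn ih =>
    have h1 := Nat.succ_mul_centralBinom_succ n
    have h2 : (n * (n + 1) ^ 2) * ((n + 1).centralBinom ^ 2 * (4 * (n + 1))) =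
        (4 * (2 * n + 1) ^ 2 * (n + 1)) * (n.centralBinom ^ 2 * (4 * n)) := by
      have h3 : ((n + 1) * (n + 1).centralBinom) ^ 2 =
          (2 * (2 * n + 1) * n.centralBinom) ^ 2 := by rw [h1]
      calc (n * (n + 1) ^ 2) * ((n + 1).centralBinom ^ 2 * (4 * (n + 1)))
          = ((n + 1) * (n + 1).centralBinom) ^ 2 * (4 * n * (n + 1)) := by ring
        _ = (2 * (2 * n + 1) * n.centralBinom) ^ 2 * (4 * n * (n + 1)) := by rw [h3]
        _ = _ := by ring
    have h4 : (n * (n + 1) ^ 2) * 16 ^ (n + 1) ≤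
        (4 * (2 * n + 1) ^ 2 * (n + 1)) * 16 ^ n := by
      have h5 : (n * (n + 1) ^ 2) * 16 ≤ 4 * (2 * n + 1) ^ 2 * (n + 1) := by
        have h6 : 4 * (2 * n + 1) ^ 2 * (n + 1) = (n * (n + 1) ^ 2) * 16 + 4 * (n + 1) := by ring
        omega
      calc (n * (n + 1) ^ 2) * 16 ^ (n + 1) = ((n * (n + 1) ^ 2) * 16) * 16 ^ n := by
            rw [pow_succ]; ring
        _ ≤ _ := Nat.mul_le_mul_right _ h5
    have h7 : (n * (n + 1) ^ 2) * 16 ^ (n + 1) ≤
        (n * (n + 1) ^ 2) * ((n + 1).centralBinom ^ 2 * (4 * (n + 1))) := by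
      rw [h2]
      exact h4.trans (Nat.mul_le_mul_left _ ih)
    exact Nat.le_of_mul_le_mul_left h7 (by positivity)

theorem Tail_max (h : ℕ) (hh : 1 ≤ h) : 4 ^ h ≤ (h.choose ((h + 1) / 2)) ^ 2 * (4 * h) := by
  obtain ⟨n, hn | hn⟩ := Nat.even_or_odd' h
  · subst hn
    have h1 := Tail_central n (by omega)
    rw [Nat.centralBinom_eq_two_mul_choose] at h1
    have h2 : (2 * n + 1) / 2 = n := by omega
    rw [h2, pow_mul]
    refine h1.trans (Nat.mul_le_mul_left _ (by omega))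
  · subst hn
    have h1 := Tail_central (n + 1) (by omega)
    rw [Nat.centralBinom_eq_two_mul_choose] at h1
    have h2 : (2 * n + 1 + 1) / 2 = n + 1 := by omega
    have h3 : (2 * (n + 1)).choose (n + 1) = 2 * (2 * n + 1).choose (n + 1) := by
      have h4 : 2 * (n + 1) = (2 * n + 1) + 1 := by ring
      rw [h4, Nat.choose_succ_succ, Nat.choose_symm_half]
      ring
    rw [h3] at h1
    rw [h2]
    have h5 : 4 * 4 ^ (2 * n + 1) ≤ 4 * ((2 * n + 1).choose (n + 1) ^ 2 * (4 * (n + 1))) := by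
      calc 4 * 4 ^ (2 * n + 1) = 16 ^ (n + 1) := by
            have h6 : (16 : ℕ) = 4 ^ 2 := by norm_num
            rw [h6, ← pow_mul]
            ring
        _ ≤ _ := h1
        _ = _ := by ring
    have h6 := Nat.le_of_mul_le_mul_left h5 (by norm_num)
    refine h6.trans (Nat.mul_le_mul_left _ (by omega))

theorem Tail_exp {u : ℝ} (h0 : 0 ≤ u) (h1 : u ≤ 1 / 2) : Real.exp (-(2 * u)) ≤ 1 - u := by
  have h2 := Real.add_one_le_exp (2 * u)
  have h3 : 0 < Real.exp (2 * u) := Real.exp_pos _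
  rw [Real.exp_neg]
  rw [inv_le_iff_one_le_mul₀ h3]
  nlinarith

theorem Tail_ratio (h y0 : ℕ) (hh : 1 ≤ h) (h16 : 16 * y0 ≤ h) :
    ∀ j : ℕ, j ≤ 2 * y0 → (h.choose ((h + 1) / 2) : ℝ) * (1 - 8 * y0 / h) ^ j ≤
      (h.choose ((h + 1) / 2 + j) : ℝ) := by
  have hR : (0 : ℝ) < h := by exact_mod_cast hh
  have h16' : 16 * (y0 : ℝ) ≤ h := by exact_mod_cast h16
  have hρ : (0 : ℝ) ≤ 1 - 8 * y0 / h := by
    rw [sub_nonneg, div_le_one hR]
    have : (0 : ℝ) ≤ y0 := Nat.cast_nonneg _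
    linarith
  intro j
  induction j with
  | zero => intro _; simp
  | succ j ih =>
    intro hj
    have h1 := ih (by omega)
    have hk : (h + 1) / 2 + j ≤ h := by omega
    have h2 := Nat.choose_succ_right_eq h ((h + 1) / 2 + j)
    have h3 : (h.choose ((h + 1) / 2 + j + 1) : ℝ) * (((h + 1) / 2 + j : ℕ) + 1) =
        h.choose ((h + 1) / 2 + j) * (h - ((h + 1) / 2 + j : ℕ)) := by
      have h4 := congrArg (Nat.cast (R := ℝ)) h2
      rw [Nat.cast_mul, Nat.cast_mul, Nat.cast_sub hk] at h4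
      push_cast at h4 ⊢
      exact h4
    have hm1 : (h : ℝ) ≤ 2 * (((h + 1) / 2 + j : ℕ) + 1) := by
      have : h ≤ 2 * (((h + 1) / 2 + j) + 1) := by omega
      exact_mod_cast this
    have hm2 : 2 * (((h + 1) / 2 + j : ℕ) : ℝ) + 1 ≤ h + 4 * y0 := by
      have : 2 * ((h + 1) / 2 + j) + 1 ≤ h + 4 * y0 := by omega
      exact_mod_cast this
    generalize hkk : (((h + 1) / 2 + j : ℕ) : ℝ) = k at h3 hm1 hm2
    have hk0 : (0 : ℝ) ≤ k := by rw [← hkk]; exact Nat.cast_nonneg _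
    have h5 : (1 - 8 * y0 / h) * (k + 1) ≤ h - k := by
      have h6 : 4 * (y0 : ℝ) ≤ 8 * y0 / h * (k + 1) := by
        rw [div_mul_eq_mul_div, le_div_iff₀ hR]
        have : (0 : ℝ) ≤ y0 := Nat.cast_nonneg _
        nlinarith
      have h7 : (1 - 8 * y0 / h) * (k + 1) = (k + 1) - 8 * y0 / h * (k + 1) := by ring
      rw [h7]
      linarith
    have hC : (0 : ℝ) ≤ h.choose ((h + 1) / 2 + j) := Nat.cast_nonneg _
    rw [pow_succ, ← mul_assoc]
    refine (mul_le_mul_of_nonneg_right h1 hρ).trans ?_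
    rw [← add_assoc]
    refine le_of_mul_le_mul_right (a := k + 1) ?_ (by linarith)
    rw [h3, mul_assoc]
    exact mul_le_mul_of_nonneg_left h5 hC

theorem tTail : StTail := by
  refine ⟨2000, by norm_num, ?_⟩
  intro h x hh hx
  have hR : (0 : ℝ) < h := by exact_mod_cast hh
  have hxh : (0 : ℝ) ≤ (x : ℝ) ^ 2 / h := by positivity
  by_cases hs : h < 2000
  · have h1 : (1 : ℕ) ≤ ∑ k ∈ (range (h + 1)).filter (fun k => h + 2 * x ≤ 2 * k), h.choose k := by
      have h2 : h ∈ (range (h + 1)).filter (fun k => h + 2 * x ≤ 2 * k) := by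
        rw [mem_filter, mem_range]
        omega
      have h3 := single_le_sum (f := fun k => h.choose k) (fun k _ => Nat.zero_le _) h2
      simp only [Nat.choose_self] at h3
      exact h3
    have h4 : Real.exp (-(2000 * (1 + (x : ℝ) ^ 2 / h))) * 2 ^ h ≤ 1 := by
      have h5 : (2 : ℝ) ^ h ≤ Real.exp h := by
        have h6 : (2 : ℝ) ≤ Real.exp 1 := by
          have := Real.add_one_le_exp (1 : ℝ)
          linarith
        have h7 : Real.exp h = Real.exp 1 ^ h := by
          rw [← Real.exp_nat_mul, mul_one]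
        rw [h7]
        exact pow_le_pow_left₀ (by norm_num) h6 h
      calc Real.exp (-(2000 * (1 + (x : ℝ) ^ 2 / h))) * 2 ^ h
          ≤ Real.exp (-(2000 * (1 + (x : ℝ) ^ 2 / h))) * Real.exp h :=
            mul_le_mul_of_nonneg_left h5 (Real.exp_pos _).le
        _ = Real.exp (-(2000 * (1 + (x : ℝ) ^ 2 / h)) + h) := (Real.exp_add _ _).symm
        _ ≤ Real.exp 0 := by
            apply Real.exp_le_exp.2
            have : (h : ℝ) < 2000 := by exact_mod_cast hs
            nlinarith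
        _ = 1 := Real.exp_zero
    exact h4.trans (by exact_mod_cast h1)
  · push Not at hs
    obtain ⟨s, hs1, hs2⟩ : ∃ s : ℕ, s * s ≤ h ∧ h < (s + 1) * (s + 1) :=
      ⟨Nat.sqrt h, Nat.sqrt_le h, Nat.lt_succ_sqrt h⟩
    have hs44 : 44 ≤ s := by
      by_contra hc
      have h1 : s + 1 ≤ 44 := by omega
      have h2 : (s + 1) * (s + 1) ≤ 44 * 44 := Nat.mul_le_mul h1 h1
      omega
    have hs3 : 44 * s ≤ s * s := Nat.mul_le_mul_right _ hs44
    have hy4 : (s + 1) * (s + 1) ≤ 4 * h := by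
      have h1 : (s + 1) * (s + 1) = s * s + 2 * s + 1 := by ring
      omega
    obtain ⟨y0, hy⟩ : ∃ y0, y0 = max x (s + 1) := ⟨_, rfl⟩
    have hy1 : x ≤ y0 := by rw [hy]; exact le_max_left _ _
    have hy2 : s + 1 ≤ y0 := by rw [hy]; exact le_max_right _ _
    have h16 : 16 * y0 ≤ h := by
      rw [hy]
      rcases le_total x (s + 1) with hc | hc
      · rw [max_eq_right hc]; omega
      · rw [max_eq_left hc]; omega
    have hy3 : y0 * y0 ≤ x * x + (s + 1) * (s + 1) := by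
      rw [hy]
      rcases le_total x (s + 1) with hc | hc
      · rw [max_eq_right hc]; omega
      · rw [max_eq_left hc]; omega
    have h16' : 16 * (y0 : ℝ) ≤ h := by exact_mod_cast h16
    have hy0 : (0 : ℝ) ≤ y0 := Nat.cast_nonneg _
    have hu0 : (0 : ℝ) ≤ 8 * y0 / h := by positivity
    have hu1 : 8 * (y0 : ℝ) / h ≤ 1 / 2 := by
      rw [div_le_iff₀ hR]
      linarith
    have hρ0 : (0 : ℝ) ≤ 1 - 8 * y0 / h := by linarith
    have hρ1 : (1 : ℝ) - 8 * y0 / h ≤ 1 := by linarith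
    have hC0 : (0 : ℝ) ≤ h.choose ((h + 1) / 2) := Nat.cast_nonneg _
    have hterm : ∀ k ∈ Ico ((h + 1) / 2 + y0) ((h + 1) / 2 + 2 * y0),
        (h.choose ((h + 1) / 2) : ℝ) * Real.exp (-(32 * (y0 : ℝ) ^ 2 / h)) ≤ h.choose k := by
      intro k hk
      rw [mem_Ico] at hk
      obtain ⟨j, rfl⟩ : ∃ j, k = (h + 1) / 2 + j := ⟨k - (h + 1) / 2, by omega⟩
      refine le_trans (mul_le_mul_of_nonneg_left ?_ hC0)
        (Tail_ratio h y0 hh h16 j (by omega))
      calc Real.exp (-(32 * (y0 : ℝ) ^ 2 / h))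
          = Real.exp (-(2 * (8 * (y0 : ℝ) / h))) ^ (2 * y0) := by
            rw [← Real.exp_nat_mul]
            congr 1
            push_cast
            field_simp
            ring
        _ ≤ (1 - 8 * (y0 : ℝ) / h) ^ (2 * y0) :=
            pow_le_pow_left₀ (Real.exp_pos _).le (Tail_exp hu0 hu1) _
        _ ≤ (1 - 8 * (y0 : ℝ) / h) ^ j := pow_le_pow_of_le_one hρ0 hρ1 (by omega)
    have hsub : Ico ((h + 1) / 2 + y0) ((h + 1) / 2 + 2 * y0) ⊆
        (range (h + 1)).filter (fun k => h + 2 * x ≤ 2 * k) := by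
      intro k hk
      rw [mem_Ico] at hk
      rw [mem_filter, mem_range]
      omega
    have hsum : (y0 : ℝ) * ((h.choose ((h + 1) / 2) : ℝ) * Real.exp (-(32 * (y0 : ℝ) ^ 2 / h))) ≤
        ((∑ k ∈ (range (h + 1)).filter (fun k => h + 2 * x ≤ 2 * k), h.choose k : ℕ) : ℝ) := by
      rw [Nat.cast_sum]
      refine le_trans ?_ (sum_le_sum_of_subset_of_nonneg hsub fun k _ _ => Nat.cast_nonneg _)
      have h1 := card_nsmul_le_sum _ _ _ hterm
      rw [Nat.card_Ico, nsmul_eq_mul] at h1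
      have h2 : (h + 1) / 2 + 2 * y0 - ((h + 1) / 2 + y0) = y0 := by omega
      rw [h2] at h1
      exact h1
    refine le_trans ?_ hsum
    have hcen : (2 : ℝ) ^ h ≤ 2 * (y0 * h.choose ((h + 1) / 2)) := by
      have h1 : (4 : ℝ) ^ h ≤ (h.choose ((h + 1) / 2) : ℝ) ^ 2 * (4 * h) := by
        exact_mod_cast Tail_max h hh
      have h2 : (h : ℝ) ≤ (y0 : ℝ) ^ 2 := by
        have h3 : h ≤ y0 * y0 := by
          have := Nat.mul_le_mul hy2 hy2
          omega
        rw [pow_two]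
        exact_mod_cast h3
      have h3 : ((2 : ℝ) ^ h) ^ 2 ≤ (2 * (y0 * h.choose ((h + 1) / 2))) ^ 2 := by
        calc ((2 : ℝ) ^ h) ^ 2 = 4 ^ h := by
              rw [← pow_mul, mul_comm, pow_mul]
              norm_num
          _ ≤ (h.choose ((h + 1) / 2) : ℝ) ^ 2 * (4 * h) := h1
          _ ≤ (h.choose ((h + 1) / 2) : ℝ) ^ 2 * (4 * (y0 : ℝ) ^ 2) := by
              refine mul_le_mul_of_nonneg_left ?_ (by positivity)
              linarith
          _ = _ := by ring
      exact (pow_le_pow_iff_left₀ (by positivity) (by positivity) (by norm_num)).1 h3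
    have hexp : 2 * Real.exp (-(2000 * (1 + (x : ℝ) ^ 2 / h))) ≤
        Real.exp (-(32 * (y0 : ℝ) ^ 2 / h)) := by
      have h6 : (2 : ℝ) ≤ Real.exp 1 := by
        have := Real.add_one_le_exp (1 : ℝ)
        linarith
      calc 2 * Real.exp (-(2000 * (1 + (x : ℝ) ^ 2 / h)))
          ≤ Real.exp 1 * Real.exp (-(2000 * (1 + (x : ℝ) ^ 2 / h))) :=
            mul_le_mul_of_nonneg_right h6 (Real.exp_pos _).le
        _ = Real.exp (1 + -(2000 * (1 + (x : ℝ) ^ 2 / h))) := (Real.exp_add _ _).symm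
        _ ≤ _ := by
            apply Real.exp_le_exp.2
            have h7 : (y0 : ℝ) ^ 2 ≤ (x : ℝ) ^ 2 + 4 * h := by
              have h8 : y0 * y0 ≤ x * x + 4 * h := hy3.trans (by omega)
              have h9 : ((y0 * y0 : ℕ) : ℝ) ≤ ((x * x + 4 * h : ℕ) : ℝ) := by exact_mod_cast h8
              push_cast at h9
              nlinarith
            have h8 : 32 * (y0 : ℝ) ^ 2 / h ≤ 32 * ((x : ℝ) ^ 2 / h) + 128 := by
              rw [div_le_iff₀ hR]
              have h9 : (32 * ((x : ℝ) ^ 2 / h) + 128) * h = 32 * (x : ℝ) ^ 2 + 128 * h := by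
                field_simp
              rw [h9]
              linarith
            linarith
    calc Real.exp (-(2000 * (1 + (x : ℝ) ^ 2 / h))) * 2 ^ h
        ≤ Real.exp (-(2000 * (1 + (x : ℝ) ^ 2 / h))) * (2 * (y0 * h.choose ((h + 1) / 2))) :=
          mul_le_mul_of_nonneg_left hcen (Real.exp_pos _).le
      _ = (2 * Real.exp (-(2000 * (1 + (x : ℝ) ^ 2 / h)))) * (y0 * h.choose ((h + 1) / 2)) := by
          ring
      _ ≤ Real.exp (-(32 * (y0 : ℝ) ^ 2 / h)) * (y0 * h.choose ((h + 1) / 2)) :=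
          mul_le_mul_of_nonneg_right hexp (by positivity)
      _ = _ := by ring

end Pool.Agent.SplitLB
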