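import Pool.Agent.Lib.MP_7cd5ec_co.LB.Spec

/-!
# MP_7cd5ec_co, package LB, module Tl: lower tails for all vertices of a set
-/

set_option autoImplicit false

namespace Pool.Agent.SplitLB

open Finset

private theorem Tl_prod (q : ℕ) (N : Finset (Fin q)) (β : ℝ) :
    ∏ a : Fin q, ((2 : ℝ) ^ q * (if a ∈ N then β else 1)) = 2 ^ (q * q) * β ^ N.card := by
  rw [prod_mul_distrib, prod_const, card_univ, Fintype.card_fin, ← pow_mul]
  congr 1
  rw [prod_ite_mem, univ_inter, prod_const]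

private theorem Tl_imp {α : Type} [Fintype α] {p : Prop} (hp : p) (P : α → Prop) :
    cnt (fun x => p → P x) = cnt P :=
  cnt_congr fun _ => ⟨fun h => h hp, fun h _ => h⟩

theorem tTl (hRd : StRd) (hInd : StInd) (hRT : StRT) : StTl := by
  intro C0 hC0 htail q S i A W k x h0 hh0 hW
  obtain ⟨e, -, -, ho, hf, hh⟩ := hRd q S i
  have hind := hInd q e (fun a g => a ∈ W →
    cnt (fun b => (g b = true ∧ (i + 1, b) ∈ A) ∨
      (g b = false ∧ (i + 2, S.c (i + 2) (e (a, b))) ∈ A)) ≤ k)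
  have h1 : cnt (fun ε : Co q => ∀ a ∈ W, o S ε A (i, a) ≤ k) = _ := (cnt_congr fun ε => by
    constructor
    · intro h a ha
      have := h a ha
      rw [ho ε A a] at this
      exact this
    · intro h a ha
      rw [ho ε A a]
      exact h a ha).trans hind
  rw [h1, Nat.cast_prod, ← Tl_prod]
  refine prod_le_prod (fun a _ => Nat.cast_nonneg _) fun a _ => ?_
  by_cases ha : a ∈ W
  · rw [if_pos ha]
    obtain ⟨h2, h3, h4⟩ := hW a ha
    rw [hh A a] at h2 h3 h4
    rw [hf A a] at h4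
    rw [Tl_imp ha]
    exact hRT C0 hC0 htail q (fun b => (i + 1, b) ∈ A)
      (fun b => (i + 2, S.c (i + 2) (e (a, b))) ∈ A) k x h0 hh0 h2 h3 h4
  · rw [if_neg ha, mul_one]
    have h2 := cnt_le (fun g : Fin q → Bool => a ∈ W →
      cnt (fun b => (g b = true ∧ (i + 1, b) ∈ A) ∨
        (g b = false ∧ (i + 2, S.c (i + 2) (e (a, b))) ∈ A)) ≤ k)
    have h3 : Fintype.card (Fin q → Bool) = 2 ^ q := by simp
    rw [h3] at h2
    exact_mod_cast h2

end Pool.Agent.SplitLB
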