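import Pool.Agent.Lib.MP_7cd5ec_co.LB.Spec

/-!
# MP_7cd5ec_co, package LB: many vertices with small `ff` outside of `A`
-/

set_option autoImplicit false

namespace Pool.Agent.SplitLB

open Finset

private theorem WL_sum {q : ℕ} (A : Finset (V q)) (i : Fin 3) :
    al A i + al A (i + 1) + al A (i + 2) = al A 0 + al A 1 + al A 2 := by
  have h : ∀ g : Fin 3 → ℕ, g i + g (i + 1) + g (i + 2) = g 0 + g 1 + g 2 := by
    intro g
    fin_cases i
    · change g 0 + g 1 + g 2 = _
      rfl
    · change g 1 + g 2 + g 0 = _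
      ring
    · change g 2 + g 0 + g 1 = _
      ring
  exact h (al A)

/-- Many vertices with small `ff` outside of `A`. -/
theorem tWL (hHF : StHF) : StWL := by
  intro q s S A i hs hq hA
  have hsum := WL_sum A i
  have h1 := (hHF q S A i).2.1
  have h2 := cnt_mul_le (fun a : Fin q => 2 * ff S A i a) (s + 1)
  rw [← mul_sum, h1] at h2
  have h3 : cnt (fun a : Fin q => s + 1 ≤ 2 * ff S A i a) ≤ 8 * s := by
    have h4 : 2 * (al A (i + 1) * al A (i + 2)) ≤ 8 * s * s := by
      have h5 : al A (i + 1) + al A (i + 2) ≤ 4 * s := by omega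
      zify at h5 ⊢
      have h6 : (0 : ℤ) ≤ al A (i + 1) := by positivity
      have h7 : (0 : ℤ) ≤ al A (i + 2) := by positivity
      nlinarith [sq_nonneg ((al A (i + 1) : ℤ) - al A (i + 2)),
        mul_self_le_mul_self (add_nonneg h6 h7) h5]
    have h8 : cnt (fun a : Fin q => s + 1 ≤ 2 * ff S A i a) * (s + 1) ≤ 8 * s * (s + 1) :=
      h2.trans (h4.trans (Nat.mul_le_mul_left _ (Nat.le_succ s)))
    exact Nat.le_of_mul_le_mul_right h8 (Nat.succ_pos s)
  have h9 : cnt (fun a : Fin q => ¬ ((i, a) ∉ A ∧ 2 * ff S A i a ≤ s)) ≤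
      al A i + cnt (fun a : Fin q => s + 1 ≤ 2 * ff S A i a) := by
    rw [cnt_split _ (fun a : Fin q => (i, a) ∈ A)]
    refine Nat.add_le_add ?_ ?_
    · exact cnt_mono fun a ha => ha.2
    · refine cnt_mono fun a ha => ?_
      by_contra h
      exact ha.1 ⟨ha.2, by omega⟩
  have h10 := cnt_add_not (fun a : Fin q => (i, a) ∉ A ∧ 2 * ff S A i a ≤ s)
  rw [Fintype.card_fin] at h10
  have h11 : al A i ≤ 4 * s := by omega
  omega

end Pool.Agent.SplitLB
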