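import Pool.Agent.Lib.MP_7cd5ec_co.LB.Spec

/-!
# MP_7cd5ec_co, package LB, module Win: windows for all vertices of a part
-/

set_option autoImplicit false

namespace Pool.Agent.SplitLB

open Finset

private theorem Win_prod (q : ℕ) (N : Finset (Fin q)) (β : ℝ) :
    ∏ a : Fin q, ((2 : ℝ) ^ q * (if a ∈ N then β else 1)) = 2 ^ (q * q) * β ^ N.card := by
  rw [prod_mul_distrib, prod_const, card_univ, Fintype.card_fin, ← pow_mul]
  congr 1
  rw [prod_ite_mem, univ_inter, prod_const]

private theorem Win_imp {α : Type} [Fintype α] {p : Prop} (hp : p) (P : α → Prop) :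
    cnt (fun x => p → P x) = cnt P :=
  cnt_congr fun _ => ⟨fun h => h hp, fun h _ => h⟩

theorem tWin (hRd : StRd) (hInd : StInd) (hRW : StRW) : StWin := by
  intro q S i U N m w h0 hh0 hN
  obtain ⟨e, -, -, ho, -, hh⟩ := hRd q S i
  have hind := hInd q e (fun a g => a ∈ N →
    (m a ≤ cnt (fun b => (g b = true ∧ (i + 1, b) ∈ U a) ∨
      (g b = false ∧ (i + 2, S.c (i + 2) (e (a, b))) ∈ U a)) ∧
    cnt (fun b => (g b = true ∧ (i + 1, b) ∈ U a) ∨
      (g b = false ∧ (i + 2, S.c (i + 2) (e (a, b))) ∈ U a)) < m a + w))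
  have h1 : cnt (fun ε : Co q => ∀ a ∈ N, m a ≤ o S ε (U a) (i, a) ∧
      o S ε (U a) (i, a) < m a + w) = _ := (cnt_congr fun ε => by
    constructor
    · intro h a ha
      have := h a ha
      rw [ho ε (U a) a] at this
      exact this
    · intro h a ha
      rw [ho ε (U a) a]
      exact h a ha).trans hind
  rw [h1, Nat.cast_prod, ← Win_prod]
  refine prod_le_prod (fun a _ => Nat.cast_nonneg _) fun a _ => ?_
  by_cases ha : a ∈ N
  · rw [if_pos ha]
    have h2 := hN a ha
    rw [hh (U a) a] at h2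
    have h3 := hRW q (fun b => (i + 1, b) ∈ U a)
      (fun b => (i + 2, S.c (i + 2) (e (a, b))) ∈ U a) (m a) w (hh0.trans h2)
    rw [Win_imp ha]
    refine h3.trans ?_
    refine mul_le_mul_of_nonneg_left ?_ (by positivity)
    have h4 : (0 : ℝ) < h0 := by exact_mod_cast hh0
    refine div_le_div_of_nonneg_left (Nat.cast_nonneg _) (Real.sqrt_pos.2 h4) ?_
    exact Real.sqrt_le_sqrt (by exact_mod_cast h2)
  · rw [if_neg ha, mul_one]
    have h2 := cnt_le (fun g : Fin q → Bool => a ∈ N →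
      (m a ≤ cnt (fun b => (g b = true ∧ (i + 1, b) ∈ U a) ∨
        (g b = false ∧ (i + 2, S.c (i + 2) (e (a, b))) ∈ U a)) ∧
      cnt (fun b => (g b = true ∧ (i + 1, b) ∈ U a) ∨
        (g b = false ∧ (i + 2, S.c (i + 2) (e (a, b))) ∈ U a)) < m a + w))
    have h3 : Fintype.card (Fin q → Bool) = 2 ^ q := by simp
    rw [h3] at h2
    exact_mod_cast h2

end Pool.Agent.SplitLB
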