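import Pool.Agent.Lib.MP_7cd5ec_co.LB.Ctr
import Pool.Agent.Lib.MP_7cd5ec_co.LB.Tail
import Pool.Agent.Lib.MP_7cd5ec_co.LB.Chs
import Pool.Agent.Lib.MP_7cd5ec_co.LB.RL
import Pool.Agent.Lib.MP_7cd5ec_co.LB.RW
import Pool.Agent.Lib.MP_7cd5ec_co.LB.RT
import Pool.Agent.Lib.MP_7cd5ec_co.LB.Ind
import Pool.Agent.Lib.MP_7cd5ec_co.LB.TSx
import Pool.Agent.Lib.MP_7cd5ec_co.LB.Rd
import Pool.Agent.Lib.MP_7cd5ec_co.LB.Dg
import Pool.Agent.Lib.MP_7cd5ec_co.LB.Tr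
import Pool.Agent.Lib.MP_7cd5ec_co.LB.Sum
import Pool.Agent.Lib.MP_7cd5ec_co.LB.HF
import Pool.Agent.Lib.MP_7cd5ec_co.LB.Win
import Pool.Agent.Lib.MP_7cd5ec_co.LB.Tl
import Pool.Agent.Lib.MP_7cd5ec_co.LB.Num
import Pool.Agent.Lib.MP_7cd5ec_co.LB.Al
import Pool.Agent.Lib.MP_7cd5ec_co.LB.HL
import Pool.Agent.Lib.MP_7cd5ec_co.LB.I
import Pool.Agent.Lib.MP_7cd5ec_co.LB.WL
import Pool.Agent.Lib.MP_7cd5ec_co.LB.Nm2
import Pool.Agent.Lib.MP_7cd5ec_co.LB.II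
import Pool.Agent.Lib.MP_7cd5ec_co.LB.Kn
import Pool.Agent.Lib.MP_7cd5ec_co.LB.Fin

/-!
# MP_7cd5ec_co, package LB: assembly
-/

set_option autoImplicit false

namespace Pool.Agent.SplitLB

theorem aFin : StFin := by
  have hSum : StSum := tSum
  have hRL : StRL := tRL
  have hRd : StRd := tRd
  have hInd : StInd := tInd
  have hDg : StDg := tDg hRd
  have hHF : StHF := tHF hRd
  have hRW : StRW := tRW hRL tCtr
  have hRT : StRT := tRT hRL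
  have hWin : StWin := tWin hRd hInd hRW
  have hTl : StTl := tTl hRd hInd hRT
  have hAl : StAl := tAl hSum tNum
  have hHL : StHL := tHL hHF
  have hWL : StWL := tWL hHF
  have hI : StI := tI hHF hWin hAl hHL
  have hII : StII := tII tTail tChs hDg hSum hHF hTl hAl hWL tNm2
  exact tFin tTSx (tTr hDg) hI hII tKn

end Pool.Agent.SplitLB
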