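import Pool.Agent.Lib.MP_7cd5ec_co.LB.Spec

/-!
# MP_7cd5ec_co, package LB: binomial coefficients are at most `2^h / sqrt h`
-/

set_option autoImplicit false

namespace Pool.Agent.SplitLB

open Finset

private theorem Ctr_central (n : ℕ) : Nat.centralBinom n ^ 2 * (2 * n + 1) ≤ 16 ^ n := by
  induction n with
  | zero => simp
  | succ n ih =>
    have h1 := Nat.succ_mul_centralBinom_succ n
    set b := Nat.centralBinom n with hb
    set c := Nat.centralBinom (n + 1) with hc
    have h2 : (n + 1) ^ 2 * (c ^ 2 * (2 * (n + 1) + 1)) ≤ (n + 1) ^ 2 * 16 ^ (n + 1) := by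
      calc (n + 1) ^ 2 * (c ^ 2 * (2 * (n + 1) + 1)) = ((n + 1) * c) ^ 2 * (2 * n + 3) := by ring
        _ = (2 * (2 * n + 1) * b) ^ 2 * (2 * n + 3) := by rw [h1]
        _ = (b ^ 2 * (2 * n + 1)) * (4 * ((2 * n + 1) * (2 * n + 3))) := by ring
        _ ≤ 16 ^ n * (4 * (4 * (n + 1) ^ 2)) := by
          apply Nat.mul_le_mul ih
          nlinarith
        _ = (n + 1) ^ 2 * 16 ^ (n + 1) := by ring
    exact Nat.le_of_mul_le_mul_left h2 (by positivity)

private theorem Ctr_odd (n : ℕ) : 2 * (2 * n + 1).choose n = Nat.centralBinom (n + 1) := by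
  have h1 : Nat.centralBinom (n + 1) = (2 * n + 2).choose (n + 1) := by
    rw [Nat.centralBinom_eq_two_mul_choose]
    congr 1
  rw [h1, Nat.choose_succ_succ' (2 * n + 1) n]
  have h2 : (2 * n + 1).choose (n + 1) = (2 * n + 1).choose n := by
    apply Nat.choose_symm_of_eq_add
    ring
  rw [h2]
  ring

/-- `C(h,k)^2 h ≤ 4^h` -/
theorem tCtr : StCtr := by
  intro h k
  obtain ⟨n, rfl | rfl⟩ := Nat.even_or_odd' h
  · have h1 : (2 * n).choose k ≤ Nat.centralBinom n := Nat.choose_le_centralBinom k n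
    calc (2 * n).choose k ^ 2 * (2 * n) ≤ Nat.centralBinom n ^ 2 * (2 * n + 1) :=
          Nat.mul_le_mul (Nat.pow_le_pow_left h1 2) (by omega)
      _ ≤ 16 ^ n := Ctr_central n
      _ = 4 ^ (2 * n) := by rw [pow_mul]; norm_num
  · have h1 : (2 * n + 1).choose k ≤ (2 * n + 1).choose n := by
      have h2 := Nat.choose_le_middle k (2 * n + 1)
      rwa [show (2 * n + 1) / 2 = n by omega] at h2
    have h3 := Ctr_central (n + 1)
    rw [← Ctr_odd n] at h3
    have h4 : 4 * ((2 * n + 1).choose k ^ 2 * (2 * n + 1)) ≤ 4 * 4 ^ (2 * n + 1) := by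
      calc 4 * ((2 * n + 1).choose k ^ 2 * (2 * n + 1))
          ≤ 4 * ((2 * n + 1).choose n ^ 2 * (2 * (n + 1) + 1)) :=
            Nat.mul_le_mul_left 4 (Nat.mul_le_mul (Nat.pow_le_pow_left h1 2) (by omega))
        _ = (2 * (2 * n + 1).choose n) ^ 2 * (2 * (n + 1) + 1) := by ring
        _ ≤ 16 ^ (n + 1) := h3
        _ = 4 * 4 ^ (2 * n + 1) := by
          rw [← pow_succ', show 2 * n + 1 + 1 = 2 * (n + 1) by ring, pow_mul]; norm_num
    exact Nat.le_of_mul_le_mul_left h4 (by norm_num)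

end Pool.Agent.SplitLB
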