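import Mathlib

/-!
# MP_7cd5ec_co, package LB: lower bounds for f(s,t), definitions

Random orientations of the triangles of a Latin square.  `V q = Fin 3 × Fin q` is the vertex set of
the complete tripartite graph `K_(q,q,q)`; its edges are partitioned into `q²` triangles, indexed by
`τ ∈ Fin q × Fin q`, the triangle `τ` has the vertices `(i, c i τ)`, `i = 0, 1, 2`.  Every triangle is
oriented cyclically, in the direction given by the coin `ε τ`.  All outdegrees are `q`.
-/

set_option autoImplicit false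

namespace Pool.Agent.SplitLB

open Finset

/-! ## Counting -/

section count

variable {α β : Type} [Fintype α] [Fintype β]

/-- the number of the elements of a finite type with the property `P` -/
noncomputable def cnt (P : α → Prop) : ℕ := open Classical in (univ.filter P).card

theorem cnt_eq (P : α → Prop) [DecidablePred P] : cnt P = (univ.filter P).card := by
  unfold cnt
  congr

theorem cnt_congr {P Q : α → Prop} (h : ∀ x, P x ↔ Q x) : cnt P = cnt Q := by
  have e : P = Q := funext fun x => propext (h x)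
  rw [e]

theorem cnt_mono {P Q : α → Prop} (h : ∀ x, P x → Q x) : cnt P ≤ cnt Q := by
  classical
  rw [cnt_eq, cnt_eq]
  exact card_le_card fun x hx => by
    rw [mem_filter] at hx ⊢
    exact ⟨hx.1, h x hx.2⟩

theorem cnt_le (P : α → Prop) : cnt P ≤ Fintype.card α := by
  classical
  rw [cnt_eq]
  exact card_le_univ _

theorem cnt_true : cnt (fun _ : α => True) = Fintype.card α := by
  classical
  rw [cnt_eq]
  simp

theorem cnt_split (P Q : α → Prop) : cnt P = cnt (fun x => P x ∧ Q x) + cnt (fun x => P x ∧ ¬ Q x) := by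
  classical
  rw [cnt_eq, cnt_eq, cnt_eq, ← card_union_of_disjoint]
  · congr 1
    ext x
    simp only [mem_filter, mem_univ, true_and, mem_union]
    tauto
  · rw [disjoint_filter]
    intro x _ h1 h2
    exact h2.2 h1.2

theorem cnt_add_not (P : α → Prop) : cnt P + cnt (fun x => ¬ P x) = Fintype.card α := by
  rw [← cnt_true, cnt_split (fun _ : α => True) P]
  congr 1 <;> exact cnt_congr fun x => by tauto

theorem cnt_equiv (e : α ≃ β) (P : β → Prop) : cnt (fun x => P (e x)) = cnt P := by
  classical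
  rw [cnt_eq, cnt_eq]
  refine card_bij (fun x _ => e x) ?_ ?_ ?_
  · intro x hx
    simpa using hx
  · intro x _ y _ h
    exact e.injective h
  · intro y hy
    exact ⟨e.symm y, by simpa using hy, by simp⟩

theorem cnt_finset (A : Finset α) : cnt (fun x => x ∈ A) = A.card := by
  classical
  rw [cnt_eq]
  congr 1
  ext x
  simp

/-- the union bound -/
theorem cnt_exists_le {ι : Type} (I : Finset ι) (P : ι → α → Prop) :
    cnt (fun x => ∃ i ∈ I, P i x) ≤ ∑ i ∈ I, cnt (P i) := by
  classical
  simp only [cnt_eq]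
  refine (card_le_card ?_).trans card_biUnion_le
  intro x hx
  rw [mem_filter] at hx
  obtain ⟨-, i, hi, h⟩ := hx
  rw [mem_biUnion]
  exact ⟨i, hi, by simpa using h⟩

theorem exists_not_of_cnt_lt {P : α → Prop} (h : cnt P < Fintype.card α) : ∃ x, ¬ P x := by
  by_contra h1
  push Not at h1
  rw [cnt_congr (Q := fun _ => True) fun x => ⟨fun _ => trivial, fun _ => h1 x⟩, cnt_true] at h
  exact lt_irrefl _ h

/-- Markov's inequality -/
theorem cnt_mul_le (f : α → ℕ) (m : ℕ) : cnt (fun x => m ≤ f x) * m ≤ ∑ x, f x := by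
  classical
  rw [cnt_eq, card_eq_sum_ones, sum_mul, one_mul]
  calc ∑ x ∈ univ.filter (fun x => m ≤ f x), m ≤ ∑ x ∈ univ.filter (fun x => m ≤ f x), f x :=
        sum_le_sum fun x hx => (mem_filter.1 hx).2
    _ ≤ ∑ x, f x := sum_le_sum_of_subset (filter_subset _ _)

theorem sum_cnt {γ : Type} [Fintype γ] (R : α → γ → Prop) :
    ∑ x, cnt (R x) = cnt (fun p : α × γ => R p.1 p.2) := by
  classical
  simp only [cnt_eq, card_filter]
  rw [Fintype.sum_prod_type]

end count

/-! ## The digraph -/

/-- A decomposition of `K_(q,q,q)` into triangles. -/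
structure TS (q : ℕ) where
  c : Fin 3 → Fin q × Fin q → Fin q
  bij : ∀ i : Fin 3, Function.Bijective fun τ : Fin q × Fin q => (c i τ, c (i + 1) τ)

/-- the vertices -/
abbrev V (q : ℕ) : Type := Fin 3 × Fin q

/-- the coins -/
abbrev Co (q : ℕ) : Type := Fin q × Fin q → Bool

variable {q : ℕ}

/-- the out-neighbour of the vertex `(i, c i τ)` in the triangle `τ` -/
def nx (S : TS q) (ε : Co q) (i : Fin 3) (τ : Fin q × Fin q) : V q :=
  if ε τ = true then (i + 1, S.c (i + 1) τ) else (i + 2, S.c (i + 2) τ)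

/-- the digraph -/
def E (S : TS q) (ε : Co q) (v w : V q) : Prop := ∃ τ, S.c v.1 τ = v.2 ∧ nx S ε v.1 τ = w

/-- the number of the out-neighbours of `v` in `A` -/
noncomputable def o (S : TS q) (ε : Co q) (A : Finset (V q)) (v : V q) : ℕ :=
  cnt fun τ => S.c v.1 τ = v.2 ∧ nx S ε v.1 τ ∈ A

/-- the number of the vertices of `A` in the part `i` -/
noncomputable def al (A : Finset (V q)) (i : Fin 3) : ℕ := cnt fun a : Fin q => (i, a) ∈ A

/-- the number of the triangles at `(i, a)` with both other vertices in `A` -/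
noncomputable def ff (S : TS q) (A : Finset (V q)) (i : Fin 3) (a : Fin q) : ℕ :=
  cnt fun τ => S.c i τ = a ∧ (i + 1, S.c (i + 1) τ) ∈ A ∧ (i + 2, S.c (i + 2) τ) ∈ A

/-- the number of the triangles at `(i, a)` with exactly one of the two other vertices in `A` -/
noncomputable def hh (S : TS q) (A : Finset (V q)) (i : Fin 3) (a : Fin q) : ℕ :=
  cnt fun τ => S.c i τ = a ∧ ¬ ((i + 1, S.c (i + 1) τ) ∈ A ↔ (i + 2, S.c (i + 2) τ) ∈ A)

/-- the vertex set is split -/
def Spl (S : TS q) (ε : Co q) (s t : ℕ) : Prop :=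
  ∃ A : Finset (V q), A.Nonempty ∧ Aᶜ.Nonempty ∧ (∀ v ∈ A, s ≤ o S ε A v) ∧ ∀ v ∈ Aᶜ, t ≤ o S ε Aᶜ v

/-- splitting of a digraph on `Fin n` (as in the frozen statement) -/
def SplitF (n : ℕ) (Adj : Fin n → Fin n → Prop) (s t : ℕ) : Prop :=
  ∃ A : Set (Fin n), A.Nonempty ∧ Aᶜ.Nonempty ∧
    (∀ v ∈ A, s ≤ {w : Fin n | w ∈ A ∧ Adj v w}.ncard) ∧
    (∀ v ∈ Aᶜ, t ≤ {w : Fin n | w ∈ Aᶜ ∧ Adj v w}.ncard)

/-- there is a digraph with all outdegrees at least `m` which is not `(s,t)`-splittable -/
def Bad (s t m : ℕ) : Prop := ∃ (n : ℕ) (Adj : Fin n → Fin n → Prop), 0 < n ∧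
  (∀ v, ¬ Adj v v) ∧ (∀ v, m ≤ {w : Fin n | Adj v w}.ncard) ∧ ¬ SplitF n Adj s t

end Pool.Agent.SplitLB
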