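import Pool.Agent.Lib.MP_7cd5ec_co.LB.Spec

/-!
# The unbalanced case
-/

set_option autoImplicit false

namespace Pool.Agent.SplitLB

open Finset

/-- every coin assignment with a splitting lies in one of the sets `M(A,i)` -/
private theorem II_cover (hDg : StDg) (hSum : StSum) (hAl : StAl) (q s t r : ℕ) (S : TS q)
    (hq : q = s + t + r) (hr : 1 ≤ r) (hrs : 128 * r ≤ s) (ε : Co q) (h : Spl S ε s t) :
    ∃ (A : Finset (V q)) (i : Fin 3), A.card ≤ 4 * s ∧ 2 * s ≤ al A (i + 1) + al A (i + 2) ∧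
      ∀ a, (i, a) ∉ A → o S ε A (i, a) ≤ s + r := by
  obtain ⟨A, h1, h2, h3, h4⟩ := h
  obtain ⟨g1, g2, -, -⟩ := hAl q s t r S ε A hq hr h1 h2 h3 h4
  have g3 := (hSum q S ε A).2.1
  obtain ⟨i, hi⟩ : ∃ i : Fin 3, 2 * s ≤ al A (i + 1) + al A (i + 2) := by
    by_contra hcon
    push Not at hcon
    have e0 : al A 1 + al A 2 < 2 * s := hcon 0
    have e1 : al A 2 + al A 0 < 2 * s := hcon 1
    have e2 : al A 0 + al A 1 < 2 * s := hcon 2
    omega
  refine ⟨A, i, by omega, hi, ?_⟩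
  intro a ha
  have g4 := h4 (i, a) (by rw [mem_compl]; exact ha)
  have g5 := (hDg q S ε).2.2.2 (i, a) A
  omega

/-- the bound for one of the sets `M(A,i)` -/
private theorem II_one (hHF : StHF) (hTl : StTl) (hWL : StWL) (C0 : ℝ) (hC0 : 1 ≤ C0)
    (hT : ∀ h x : ℕ, 1 ≤ h → 64 * x ≤ h →
      Real.exp (-(C0 * (1 + (x : ℝ) ^ 2 / h))) * 2 ^ h ≤
        ((∑ k ∈ (range (h + 1)).filter (fun k => h + 2 * x ≤ 2 * k), h.choose k : ℕ) : ℝ))
    (q s r n : ℕ) (S : TS q) (hs : 1 ≤ s) (hr : 1 ≤ r) (hrs : 128 * r ≤ s) (hsq : 24 * s ≤ q)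
    (hn : q = 2 * n ∨ q + 1 = 2 * n) (A : Finset (V q)) (i : Fin 3) (hA : al A 0 + al A 1 + al A 2 ≤ 4 * s)
    (hAi : 2 * s ≤ al A (i + 1) + al A (i + 2)) :
    (cnt (fun ε : Co q => ∀ a, (i, a) ∉ A → o S ε A (i, a) ≤ s + r) : ℝ) ≤
      2 ^ (q * q) * (1 - Real.exp (-(C0 * (1 + ((r + 1 : ℕ) : ℝ) ^ 2 / s)))) ^ n := by
  classical
  set W : Finset (Fin q) := univ.filter (fun a => (i, a) ∉ A ∧ 2 * ff S A i a ≤ s) with hW
  have hWc : q ≤ 2 * W.card := by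
    have := hWL q s S A i hs hsq hA
    rw [cnt_eq] at this
    exact this
  have hnW : n ≤ W.card := by omega
  have h1 := hTl C0 hC0 hT q S i A W (s + r) (r + 1) s hs (by
    intro a ha
    rw [hW, mem_filter] at ha
    have h2 := (hHF q S A i).1 a
    have h3 := ha.2.2
    refine ⟨by omega, by omega, by omega⟩)
  have h2 : cnt (fun ε : Co q => ∀ a, (i, a) ∉ A → o S ε A (i, a) ≤ s + r) ≤
      cnt (fun ε : Co q => ∀ a ∈ W, o S ε A (i, a) ≤ s + r) :=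
    cnt_mono fun ε h a ha => h a (by
      rw [hW, mem_filter] at ha
      exact ha.2.1)
  have h2' : (cnt (fun ε : Co q => ∀ a, (i, a) ∉ A → o S ε A (i, a) ≤ s + r) : ℝ) ≤
      (cnt (fun ε : Co q => ∀ a ∈ W, o S ε A (i, a) ≤ s + r) : ℝ) := by exact_mod_cast h2
  refine h2'.trans (h1.trans ?_)
  refine mul_le_mul_of_nonneg_left ?_ (by positivity)
  have hp0 : 0 < Real.exp (-(C0 * (1 + ((r + 1 : ℕ) : ℝ) ^ 2 / s))) := Real.exp_pos _
  have hp1 : Real.exp (-(C0 * (1 + ((r + 1 : ℕ) : ℝ) ^ 2 / s))) ≤ 1 := by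
    rw [Real.exp_le_one_iff]
    have : 0 ≤ C0 * (1 + ((r + 1 : ℕ) : ℝ) ^ 2 / s) := by positivity
    linarith
  exact pow_le_pow_of_le_one (by linarith) (by linarith) hnW

theorem tII (hTail : StTail) (hChs : StChs) (hDg : StDg) (hSum : StSum) (hHF : StHF) (hTl : StTl)
    (hAl : StAl) (hWL : StWL) (hNm2 : StNm2) : StII := by
  obtain ⟨C0, hC0, hT⟩ := hTail
  obtain ⟨K0, c2, hK, hc2, hc2', hN⟩ := hNm2 C0 hC0
  refine ⟨K0, c2, by omega, hc2, ?_⟩
  intro q s t r S hq hs hKt hr hrs hrl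
  by_contra hcon
  push Not at hcon
  classical
  have hrs' : 128 * r ≤ s := by
    have h1 : (0 : ℝ) ≤ s := by positivity
    have h2 : (128 : ℝ) * r ≤ s := by nlinarith
    exact_mod_cast h2
  have hst : 24 * s ≤ t := (Nat.mul_le_mul_right s hK).trans hKt
  have hsq : 24 * s ≤ q := by omega
  obtain ⟨n, hn⟩ : ∃ n : ℕ, q = 2 * n ∨ q + 1 = 2 * n := ⟨(q + 1) / 2, by omega⟩
  have hfin := hN q s t r n hq hs hKt hr hrs hrl (by omega)
  set P : ℝ := (1 - Real.exp (-(C0 * (1 + ((r + 1 : ℕ) : ℝ) ^ 2 / s)))) ^ n with hP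
  have hP0 : 0 ≤ P := by
    have hp1 : Real.exp (-(C0 * (1 + ((r + 1 : ℕ) : ℝ) ^ 2 / s))) ≤ 1 := by
      rw [Real.exp_le_one_iff]
      have : 0 ≤ C0 * (1 + ((r + 1 : ℕ) : ℝ) ^ 2 / s) := by positivity
      linarith
    rw [hP]
    exact pow_nonneg (by linarith) _
  set I : Finset (Finset (V q) × Fin 3) := (univ.filter fun A : Finset (V q) =>
    A.card ≤ 4 * s) ×ˢ (univ : Finset (Fin 3)) with hI
  set R : Finset (V q) × Fin 3 → Co q → Prop := fun z ε => 2 * s ≤ al z.1 (z.2 + 1) + al z.1 (z.2 + 2) ∧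
    ∀ a, (z.2, a) ∉ z.1 → o S ε z.1 (z.2, a) ≤ s + r with hR
  have hcov : (Fintype.card (Co q) : ℝ) ≤ ∑ z ∈ I, (cnt (R z) : ℝ) := by
    have h1 : Fintype.card (Co q) ≤ ∑ z ∈ I, cnt (R z) := by
      rw [← cnt_true]
      refine le_trans (cnt_mono ?_) (cnt_exists_le I R)
      intro ε _
      obtain ⟨A, i, hA, hAi, h⟩ := II_cover hDg hSum hAl q s t r S hq hr hrs' ε (hcon ε)
      refine ⟨(A, i), ?_, hAi, h⟩
      rw [hI, mem_product, mem_filter]
      exact ⟨⟨mem_univ _, hA⟩, mem_univ _⟩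
    exact_mod_cast h1
  have hterm : ∀ z ∈ I, (cnt (R z) : ℝ) ≤ 2 ^ (q * q) * P := by
    rintro ⟨A, i⟩ hz
    rw [hI, mem_product, mem_filter] at hz
    by_cases hAi : 2 * s ≤ al A (i + 1) + al A (i + 2)
    · have h1 := II_one hHF hTl hWL C0 hC0 hT q s r n S hs hr hrs' hsq hn A i
        (by rw [(hSum q S (fun _ => true) A).2.1]; exact hz.1.2) hAi
      have h2 : cnt (R (A, i)) ≤
          cnt (fun ε : Co q => ∀ a, (i, a) ∉ A → o S ε A (i, a) ≤ s + r) :=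
        cnt_mono fun ε h => h.2
      have h2' : (cnt (R (A, i)) : ℝ) ≤
          (cnt (fun ε : Co q => ∀ a, (i, a) ∉ A → o S ε A (i, a) ≤ s + r) : ℝ) := by
        exact_mod_cast h2
      exact h2'.trans h1
    · have h0 : cnt (R (A, i)) = 0 := by
        rw [cnt_eq, card_eq_zero, filter_eq_empty_iff]
        intro ε _ h
        exact hAi h.1
      rw [h0, Nat.cast_zero]
      positivity
  have hIc : (I.card : ℝ) ≤ 3 * (Real.exp 1 * (3 * q) / (4 * s)) ^ (4 * s) := by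
    have h1 := hChs (V q) (4 * s) (by omega) (by
      rw [Fintype.card_prod, Fintype.card_fin, Fintype.card_fin]
      omega)
    have h2 : I.card = cnt (fun A : Finset (V q) => A.card ≤ 4 * s) * 3 := by
      rw [hI, card_product, cnt_eq, card_univ, Fintype.card_fin]
    rw [h2]
    rw [Fintype.card_prod, Fintype.card_fin, Fintype.card_fin] at h1
    push_cast at h1 ⊢
    linarith
  have hcard : (Fintype.card (Co q) : ℝ) = 2 ^ (q * q) := by
    rw [Fintype.card_fun, Fintype.card_bool, Fintype.card_prod, Fintype.card_fin]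
    push_cast
    rfl
  have h2 : (0 : ℝ) < 2 ^ (q * q) := by positivity
  have h3 : ∑ z ∈ I, (cnt (R z) : ℝ) ≤ I.card * (2 ^ (q * q) * P) := by
    rw [← nsmul_eq_mul]
    exact sum_le_card_nsmul _ _ _ hterm
  have h4 : (I.card : ℝ) * (2 ^ (q * q) * P) ≤
      3 * (Real.exp 1 * (3 * q) / (4 * s)) ^ (4 * s) * (2 ^ (q * q) * P) :=
    mul_le_mul_of_nonneg_right hIc (by positivity)
  have h5 : 3 * (Real.exp 1 * (3 * q) / (4 * s)) ^ (4 * s) * (2 ^ (q * q) * P) =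
      2 ^ (q * q) * (3 * ((Real.exp 1 * (3 * q) / (4 * s)) ^ (4 * s) * P)) := by ring
  have h6 : (2 : ℝ) ^ (q * q) * (3 * ((Real.exp 1 * (3 * q) / (4 * s)) ^ (4 * s) * P)) <
      2 ^ (q * q) * 1 := mul_lt_mul_of_pos_left hfin h2
  rw [hcard] at hcov
  linarith

end Pool.Agent.SplitLB
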