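import Pool.Agent.Lib.MP_7cd5ec_co.LB.Defs

/-!
# MP_7cd5ec_co, package LB: statements with complete proofs

THEOREM.  There is `c > 0` such that for all `1 ≤ s ≤ t` there is a digraph with minimum outdegree at
least `s + t - 1 + c min(s, sqrt(s log(2t/s)))` (so `f(s,t) ≥ s + t + c min(...)`) which is not
`(s,t)`-splittable.

PLAN (note 3673).  `q = s + t + r`, `ε : Co q` arbitrary coins.  If `A` is a splitting, the number of the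
edges inside `A` and inside `Aᶜ` shows `3s ≤ |A| ≤ 3s + 3r` and that nearly all vertices `v` have an
own-side outdegree in `[s, s + 60 r]` (resp. `[t, t + 60 r]`).  The coins of the vertices of one part are
independent.  (I) `r ≤ c1 sqrt s`: the probability of this is `< 2^(-4q)` for fixed `A`.
(II) `t ≥ K0 s`: for every `A` with `|A| ≤ 4s` some vertex outside of `A` has more than `s + r`
out-neighbours in `A`, with probability `1 - (number of sets A)^(-1)`.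

Every statement `StX` is proved in the file `LB/X.lean` as `theorem tX : StX`; the statements named
after `uses` are hypotheses of that theorem (in this order).  Prefix auxiliary lemmas with the name of
the module.  All modules are independent.  `cnt P` is the number of the elements with the property `P`;
its lemmas (`cnt_congr`, `cnt_mono`, `cnt_split`, `cnt_add_not`, `cnt_equiv`, `cnt_exists_le`,
`exists_not_of_cnt_lt`, `cnt_mul_le`, `sum_cnt`, …) are in `LB/Defs.lean`.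
-/

set_option autoImplicit false

namespace Pool.Agent.SplitLB

open Finset

/-! ## Part A: general counting -/

/-- **Ctr** (60 lines; binomial coefficients).  PROOF.  `h = 2n`: `C(h,k) ≤ Nat.centralBinom n =: b n`
(`Nat.choose_le_centralBinom`), and `b n ^ 2 * (2n+1) ≤ 16 ^ n` by induction from
`(n+1) b (n+1) = 2 (2n+1) b n` (`Nat.succ_mul_centralBinom_succ`), as `(2n+1)(2n+3) ≤ 4 (n+1)^2`.
`h = 2n+1`: `C(h,k) ≤ C(2n+1,n)` (`Nat.choose_le_middle`), `2 C(2n+1,n) = b (n+1)`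
(`Nat.succ_mul_centralBinom_succ` or `Nat.centralBinom_eq_two_mul_choose` and `Nat.choose_succ_succ`),
so `4 C(h,k)^2 (2n+3) ≤ 16^(n+1)`, `C(h,k)^2 (2n+3) ≤ 4 ^ (2n+1)`. -/
def StCtr : Prop := ∀ h k : ℕ, (h.choose k) ^ 2 * h ≤ 4 ^ h

/-- **Tail** (150 lines; lower bound for the tail of the binomial distribution).
PROOF.  Let `N(y) = ∑_(k ≤ h, h + 2y ≤ 2k) C(h,k)`, decreasing in `y`.  If `32 ^ 2 ≥ h`..., the small
case: if `h < 10 ^ 6` then `N(x) ≥ 1` (the term `k = h`, `2x ≤ h`) `≥ 2^h exp(-C0)` for `C0 ≥ 10 ^ 6`.  Let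
`h ≥ 10 ^ 6` and `m = ⌈h/2⌉ = (h+1)/2`.  For `0 ≤ y ≤ h/16`: `C(h, m+y+1) / C(h, m+y) = (h-m-y)/(m+y+1) ≥ 1 - (2y+2)/(m+y+1)
≥ 1 - 4(y+1)/h ≥ exp(-8 (y+1)/h)`, so `C(h, m+y) ≥ C(h,m) exp(-8 y (y+1)/h) ≥ C(h,m) exp(-16 y^2/h)` (`y ≥ 1`).
`C(h,m)` is the largest of the `h + 1` binomial coefficients, more precisely `C(h,m) ≥ 2^h/(2 sqrt h)`
(`Nat.four_pow_le_two_mul_self_mul_centralBinom` gives only `2^h/h`; use instead: if `N'` is the sum of the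
`C(h,k)` with `|2k - h| ≤ 2 z`, `z^2 ≥ h`, then `N' ≥ 2^(h-1)` by Chebyshev; or the induction of `Ctr` in the other
direction: `b n ^ 2 * 4 n ≥ 16 ^ n` for `n ≥ 1`, since `4 (2n+1)^2 (n+1) ≥ 16 n (n+1)^2`, i.e. `(2n+1)^2 ≥ 4 n (n+1)`).
Let `y0 = max(x, ⌈sqrt h⌉)` (`h ≤ y0^2`, `2 y0 ≤ h/16`).  `N(x) ≥ N(y0) ≥ ∑_(y0 ≤ y < 2 y0) C(h, m+y) ≥
y0 C(h,m) exp(-64 y0^2/h) ≥ (1/2) 2^h exp(-64 (1 + 4 + x^2/h))` (as `y0 ≥ sqrt h`, `y0^2 ≤ x^2 + 4 h`).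
ALTERNATIVE PROOF (blocks): split the `h` coins into blocks; every argument with some constant `C0` is
welcome. -/
def StTail : Prop := ∃ C0 : ℝ, 1 ≤ C0 ∧ ∀ h x : ℕ, 1 ≤ h → 64 * x ≤ h →
  Real.exp (-(C0 * (1 + (x : ℝ) ^ 2 / h))) * 2 ^ h ≤
    ((∑ k ∈ (range (h + 1)).filter (fun k => h + 2 * x ≤ 2 * k), h.choose k : ℕ) : ℝ)

/-- **Chs** (40 lines; number of small subsets).  PROOF.  The number is `∑_(k ≤ m) C(N,k)`
(`Finset.card_powersetCard`; sets with `A.card = k`), and `∑_(k ≤ m) C(N,k) ≤ ∑_k C(N,k) (N/m)^(m-k) =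
(N/m)^m (1 + m/N)^N ≤ (N/m)^m e^m` (`N/m ≥ 1`; binomial theorem `add_pow`; `1 + x ≤ exp x`). -/
def StChs : Prop := ∀ (α : Type) [Fintype α] (m : ℕ), 1 ≤ m → m ≤ Fintype.card α →
  (cnt (fun A : Finset α => A.card ≤ m) : ℝ) ≤ (Real.exp 1 * Fintype.card α / m) ^ m

/-- **RL** (100 lines; law of one row).  `f` indices with `P ∧ Q`, `h` indices with exactly one of `P`, `Q`.
PROOF.  Generating function over `Polynomial ℕ` (or `ℤ`): `∑_g X^(cnt (if g b then P b else Q b)) =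
∑_g ∏_b X^[if g b then P b else Q b] = ∏_b (X^[P b] + X^[Q b])` (`Finset.prod_univ_sum`, `Fintype.piFinset_univ`)
`= (2 X)^f (X + 1)^h 2^(q - f - h)`; compare the coefficients of `X^m` (`Polynomial.coeff_X_pow_mul'`,
`Polynomial.coeff_X_add_one_pow`).  Or by a bijection. -/
def StRL : Prop := ∀ (q : ℕ) (P Q : Fin q → Prop) (m : ℕ),
  cnt (fun g : Fin q → Bool => cnt (fun b => (g b = true ∧ P b) ∨ (g b = false ∧ Q b)) = m) =
    2 ^ (q - cnt (fun b => ¬ (P b ↔ Q b))) * (if cnt (fun b => P b ∧ Q b) ≤ m then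
      (cnt (fun b => ¬ (P b ↔ Q b))).choose (m - cnt (fun b => P b ∧ Q b)) else 0)

/-- **RW** (50 lines; uses `StRL`, `StCtr`; the law of one row in a window).  PROOF.  Sum over the `w` values
`m, …, m + w - 1` (union bound); every value has at most `2^(q-h) C(h,k) ≤ 2^q / sqrt h` coins (`StCtr`:
`C(h,k) ≤ 2^h/sqrt h`; `h ≤ q`). -/
def StRW : Prop := ∀ (q : ℕ) (P Q : Fin q → Prop) (m w : ℕ), 1 ≤ cnt (fun b => ¬ (P b ↔ Q b)) →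
  (cnt (fun g : Fin q → Bool => m ≤ cnt (fun b => (g b = true ∧ P b) ∨ (g b = false ∧ Q b)) ∧
    cnt (fun b => (g b = true ∧ P b) ∨ (g b = false ∧ Q b)) < m + w) : ℝ) ≤
    2 ^ q * (w / Real.sqrt (cnt (fun b => ¬ (P b ↔ Q b))))

/-- **RT** (70 lines; uses `StRL`; the lower tail of one row).  `C0` with the property of `StTail`.
PROOF.  `f`, `h` as in `StRL`.  The complement: `cnt ≥ k + 1`; by `StRL` (union over the values `f + j`, `0 ≤ j ≤ h`, disjoint) the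
number of the `g` with `cnt ≥ k + 1` is `2^(q-h) ∑_(j ≤ h, f + j ≥ k + 1) C(h,j)`, and `h + 2x ≤ 2j` implies `f + j ≥ k + 1`
(as `2 (k+1) ≤ 2 f + h + 2 x`), so it is at least `2^(q-h) 2^h exp(-C0 (1 + x^2/h)) ≥ 2^q exp(-C0 (1 + x^2/h0))`. -/
def StRT : Prop := ∀ C0 : ℝ, 1 ≤ C0 → (∀ h x : ℕ, 1 ≤ h → 64 * x ≤ h →
  Real.exp (-(C0 * (1 + (x : ℝ) ^ 2 / h))) * 2 ^ h ≤
    ((∑ k ∈ (range (h + 1)).filter (fun k => h + 2 * x ≤ 2 * k), h.choose k : ℕ) : ℝ)) →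
  ∀ (q : ℕ) (P Q : Fin q → Prop) (k x h0 : ℕ), 1 ≤ h0 → h0 ≤ cnt (fun b => ¬ (P b ↔ Q b)) →
  64 * x ≤ cnt (fun b => ¬ (P b ↔ Q b)) →
  2 * (k + 1) ≤ 2 * cnt (fun b => P b ∧ Q b) + cnt (fun b => ¬ (P b ↔ Q b)) + 2 * x →
  (cnt (fun g : Fin q → Bool => cnt (fun b => (g b = true ∧ P b) ∨ (g b = false ∧ Q b)) ≤ k) : ℝ) ≤
    2 ^ q * (1 - Real.exp (-(C0 * (1 + (x : ℝ) ^ 2 / h0))))

/-- **Ind** (60 lines; independent rows).  PROOF.  `ε ↦ (a ↦ b ↦ ε (e (a,b)))` is a bijection of the functions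
`Fin q × Fin q → Bool` and `Fin q → Fin q → Bool` (`Equiv.arrowCongr`, `Equiv.curry`; `cnt_equiv`), and
`univ.filter (fun G => ∀ a, Φ a (G a)) = Fintype.piFinset fun a => univ.filter (Φ a)` (`Fintype.card_piFinset`). -/
def StInd : Prop := ∀ (q : ℕ) (e : Fin q × Fin q ≃ Fin q × Fin q)
  (Φ : Fin q → (Fin q → Bool) → Prop),
  cnt (fun ε : Co q => ∀ a, Φ a (fun b => ε (e (a, b)))) = ∏ a, cnt (Φ a)

/-! ## Part B: the digraph -/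

/-- **TSx** (40 lines).  PROOF.  `Fin q` is an additive commutative group (`NeZero q`):
`c 0 τ = τ.1`, `c 1 τ = τ.2`, `c 2 τ = -τ.1 - τ.2` (`![..]`); the three maps `(x,y)`, `(y,-x-y)`, `(-x-y,x)` are
bijective (injective and `Finite.injective_iff_bijective`).  (If the group structure of `Fin q` is inconvenient
transport from `ZMod q`.) -/
def StTSx : Prop := ∀ q : ℕ, 1 ≤ q → Nonempty (TS q)

/-- **Rd** (80 lines; the rows).  PROOF.  `e = (Equiv.ofBijective _ (S.bij i)).symm`: `S.c i (e (a,b)) = a`,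
`S.c (i+1) (e (a,b)) = b`.  Bijectivity of `b ↦ S.c (i+2) (e (a,b))`: injective, since `(c (i+2) τ, c (i+2+1) τ) = (c (i+2) τ, c i τ)`
determines `τ` (`S.bij (i+2)`, `i + 2 + 1 = i` in `Fin 3`).  The counts: the elements `τ` with `S.c i τ = a` are the `e (a,b)`,
`b ∈ Fin q` (bijection). -/
def StRd : Prop := ∀ (q : ℕ) (S : TS q) (i : Fin 3), ∃ e : Fin q × Fin q ≃ Fin q × Fin q,
  (∀ a b, S.c i (e (a, b)) = a ∧ S.c (i + 1) (e (a, b)) = b) ∧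
  (∀ a, Function.Bijective fun b => S.c (i + 2) (e (a, b))) ∧
  (∀ (ε : Co q) (U : Finset (V q)) (a : Fin q), o S ε U (i, a) =
    cnt fun b => (ε (e (a, b)) = true ∧ (i + 1, b) ∈ U) ∨
      (ε (e (a, b)) = false ∧ (i + 2, S.c (i + 2) (e (a, b))) ∈ U)) ∧
  (∀ (U : Finset (V q)) (a : Fin q), ff S U i a =
    cnt fun b => (i + 1, b) ∈ U ∧ (i + 2, S.c (i + 2) (e (a, b))) ∈ U) ∧
  (∀ (U : Finset (V q)) (a : Fin q), hh S U i a =
    cnt fun b => ¬ ((i + 1, b) ∈ U ↔ (i + 2, S.c (i + 2) (e (a, b))) ∈ U))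

/-- **Dg** (100 lines; uses `StRd`; the digraph has outdegree `q`).  PROOF.  (1) `nx S ε v.1 τ` is in another part than `v`.
(2), (3): the map `τ ↦ nx S ε v.1 τ` from the triangles at `v` to the out-neighbours is a bijection: if `nx S ε i τ = nx S ε i τ'`
then the coins agree (the parts `i+1`, `i+2` are different) and `c (i+1)` or `c (i+2)` of `τ`, `τ'` agree, and `c i τ = c i τ'`, so `τ = τ'`
(`S.bij i`, resp. `S.bij (i+2)` with `i + 2 + 1 = i`).  (4): the `q` triangles at `v` (`StRd`: `o` with `U = univ` is `cnt True = q`), and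
`nx ∈ A` or `nx ∈ Aᶜ`. -/
def StDg : Prop := ∀ (q : ℕ) (S : TS q) (ε : Co q),
  (∀ v, ¬ E S ε v v) ∧ (∀ v, cnt (E S ε v) = q) ∧
  (∀ (v : V q) (A : Finset (V q)), cnt (fun w => w ∈ A ∧ E S ε v w) = o S ε A v) ∧
  ∀ (v : V q) (A : Finset (V q)), o S ε A v + o S ε Aᶜ v = q

/-- **Tr** (60 lines; uses `StDg`; transfer to `Fin n`).  PROOF.  `n = 3 q`, an equivalence `V q ≃ Fin (3 * q)` (`finProdFinEquiv`),
`Adj` the transported relation; `Set.ncard` of a set is `cnt` of its property (`Set.ncard_eq_toFinset_card'` or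
`Set.ncard_coe_finset`), and a splitting `A : Set (Fin n)` gives the Finset of the preimages. -/
def StTr : Prop := ∀ (q : ℕ) (S : TS q) (ε : Co q) (s t : ℕ), 1 ≤ q → ¬ Spl S ε s t → Bad s t q

/-- **Sum** (100 lines; the edges inside of `A`).  PROOF.  (1) `∑_(v ∈ A) o S ε A v` is the number of the pairs `(i, τ)` with
`(i, c i τ) ∈ A` and `nx S ε i τ ∈ A` (fibres over `v = (i, c i τ)`).  For fixed `τ`: if `ε τ = true` these are the `i` with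
`(i, c i τ) ∈ A` and `(i+1, c (i+1) τ) ∈ A`; if `ε τ = false` the `i` with `(i, c i τ), (i+2, c (i+2) τ) ∈ A`, in both cases the number of
the `i` with `(i, c i τ) ∈ A`, `(i+1, c (i+1) τ) ∈ A` (reindex `i ↦ i + 2`, three cases).  By `S.bij i` the number of the `τ` with this
property is `al A i * al A (i+1)`.  (2) `A.card = ∑_i al A i` (fibres).  (3) `cnt_add_not`. -/
def StSum : Prop := ∀ (q : ℕ) (S : TS q) (ε : Co q) (A : Finset (V q)),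
  ∑ v ∈ A, o S ε A v = al A 0 * al A 1 + al A 1 * al A 2 + al A 2 * al A 0 ∧
  al A 0 + al A 1 + al A 2 = A.card ∧ ∀ i, al A i + al Aᶜ i = q

/-- **HF** (100 lines; uses `StRd`; the numbers `ff` and `hh`).  PROOF.  With `e` from `StRd`, `P b : (i+1, b) ∈ A`,
`Q b : (i+2, c (i+2) (e (a,b))) ∈ A`: `cnt P = al A (i+1)`, `cnt Q = al A (i+2)` (bijectivity in `StRd`, `cnt_equiv`), and
`cnt P + cnt Q = 2 cnt (P ∧ Q) + cnt (¬ (P ↔ Q))`.  (2) `∑_a ff S A i a` is the number of the `τ` with `(i+1, c (i+1) τ), (i+2, c (i+2) τ) ∈ A`,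
which is `al A (i+1) * al A (i+2)` by `S.bij (i+1)` (`i + 1 + 1 = i + 2`).  (3) `(¬ x ↔ ¬ y) ↔ (x ↔ y)`. -/
def StHF : Prop := ∀ (q : ℕ) (S : TS q) (A : Finset (V q)) (i : Fin 3),
  (∀ a, 2 * ff S A i a + hh S A i a = al A (i + 1) + al A (i + 2)) ∧
  ∑ a, ff S A i a = al A (i + 1) * al A (i + 2) ∧
  ∀ a, hh S Aᶜ i a = hh S A i a

/-- **Win** (90 lines; uses `StRd`, `StInd`, `StRW`; windows for all vertices of a part).
PROOF.  `e` from `StRd`; `Φ a g`: if `a ∈ N` the window condition for the count in `StRd` (with `g b` instead of `ε (e (a,b))`), otherwise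
`True`.  `StInd`: the number is `∏_a cnt (Φ a)`; `cnt (Φ a) ≤ 2^q (w / sqrt (hh S (U a) i a))` for `a ∈ N` (`StRW`, `hh` by `StRd`), `= 2^q` for
`a ∉ N`.  `w / sqrt hh ≤ w / sqrt h0`; the product of the `2^q` over all `a` is `2^(q*q)`. -/
def StWin : Prop := ∀ (q : ℕ) (S : TS q) (i : Fin 3) (U : Fin q → Finset (V q)) (N : Finset (Fin q))
  (m : Fin q → ℕ) (w h0 : ℕ), 1 ≤ h0 → (∀ a ∈ N, h0 ≤ hh S (U a) i a) →
  (cnt (fun ε : Co q => ∀ a ∈ N, m a ≤ o S ε (U a) (i, a) ∧ o S ε (U a) (i, a) < m a + w) : ℝ) ≤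
    2 ^ (q * q) * (w / Real.sqrt h0) ^ N.card

/-- **Tl** (90 lines; uses `StRd`, `StInd`, `StRT`; lower tails for all vertices of a set).
PROOF.  As `Win`, with `StRT`.  (`0 ≤ 1 - exp(-…)` as `C0 ≥ 1`.) -/
def StTl : Prop := ∀ C0 : ℝ, 1 ≤ C0 → (∀ h x : ℕ, 1 ≤ h → 64 * x ≤ h →
  Real.exp (-(C0 * (1 + (x : ℝ) ^ 2 / h))) * 2 ^ h ≤
    ((∑ k ∈ (range (h + 1)).filter (fun k => h + 2 * x ≤ 2 * k), h.choose k : ℕ) : ℝ)) →
  ∀ (q : ℕ) (S : TS q) (i : Fin 3) (A : Finset (V q)) (W : Finset (Fin q)) (k x h0 : ℕ),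
  1 ≤ h0 → (∀ a ∈ W, h0 ≤ hh S A i a ∧ 64 * x ≤ hh S A i a ∧
    2 * (k + 1) ≤ 2 * ff S A i a + hh S A i a + 2 * x) →
  (cnt (fun ε : Co q => ∀ a ∈ W, o S ε A (i, a) ≤ k) : ℝ) ≤
    2 ^ (q * q) * (1 - Real.exp (-(C0 * (1 + (x : ℝ) ^ 2 / h0)))) ^ W.card

/-! ## Part C: numbers -/

/-- **Num** (60 lines; pure arithmetic).  `x = ∑ a i`, `y = ∑ b i`, `x + y = 3 q`, `e(a) = a 0 a 1 + a 1 a 2 + a 2 a 0`.
PROOF.  `3 e(a) ≤ x²` (sum of squares), so `3 s x ≤ x²`, `3 s ≤ x`; in the same way `3 t ≤ y`, so `x ≤ 3 q - 3 t = 3 s + 3 r`.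
(3) `3 e(a) + 3 e(b) ≤ x² + y²` and `x² ≤ x (3 s + 3 r)`, `y² ≤ y (3 t + 3 r)` (as `y ≤ 3 q - 3 s`): the claim (`x + y = 3q`).
(4) `∑ (3 a i - x)² = 9 ∑ (a i)² - 3 x² = 6 x² - 18 e(a) ≤ 6 x² - 18 s x = 6 x (x - 3 s) ≤ 18 r x`. -/
def StNum : Prop := ∀ (q s t r : ℕ) (a b : Fin 3 → ℕ), q = s + t + r → (∀ i, a i + b i = q) →
  0 < a 0 + a 1 + a 2 → 0 < b 0 + b 1 + b 2 →
  s * (a 0 + a 1 + a 2) ≤ a 0 * a 1 + a 1 * a 2 + a 2 * a 0 →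
  t * (b 0 + b 1 + b 2) ≤ b 0 * b 1 + b 1 * b 2 + b 2 * b 0 →
  3 * s ≤ a 0 + a 1 + a 2 ∧ a 0 + a 1 + a 2 ≤ 3 * s + 3 * r ∧
  a 0 * a 1 + a 1 * a 2 + a 2 * a 0 + (b 0 * b 1 + b 1 * b 2 + b 2 * b 0) ≤
    s * (a 0 + a 1 + a 2) + t * (b 0 + b 1 + b 2) + 3 * q * r ∧
  ∀ i, (3 * (a i : ℤ) - (a 0 + a 1 + a 2)) ^ 2 ≤ 18 * r * (a 0 + a 1 + a 2)

/-- **Al** (70 lines; uses `StSum`, `StNum`; a splitting).  PROOF.  `StNum` for `a i = al A i`, `b i = al Aᶜ i`: the hypotheses hold by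
`StSum` (`∑_(v ∈ A) o ≥ s |A|`).  (4): `∑_(v ∈ A) (o - s) + ∑_(v ∈ Aᶜ) (o - t) ≤ 3 q r`; the vertices `(0, a)`, `a ∉ N`, contribute at least
`60 r + 1` each (write `o v = s + u v`, all `u v ≥ 0`), so `60 r (q - |N|) ≤ 3 q r` and `r ≥ 1`.  (5) `r ≤ s/100`:
`(3 al - x)² ≤ 18 r x ≤ 18 (s/100)(3.03 s) ≤ (0.74 s)²`, `3 s ≤ x ≤ 3.03 s`. -/
def StAl : Prop := ∀ (q s t r : ℕ) (S : TS q) (ε : Co q) (A : Finset (V q)), q = s + t + r → 1 ≤ r →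
  A.Nonempty → Aᶜ.Nonempty → (∀ v ∈ A, s ≤ o S ε A v) → (∀ v ∈ Aᶜ, t ≤ o S ε Aᶜ v) →
  3 * s ≤ A.card ∧ A.card ≤ 3 * s + 3 * r ∧
  20 * cnt (fun a : Fin q => ¬ (((0, a) ∈ A → o S ε A (0, a) < s + (60 * r + 1)) ∧
    ((0, a) ∉ A → o S ε Aᶜ (0, a) < t + (60 * r + 1)))) ≤ q ∧
  (100 * r ≤ s → ∀ i, 3 * s ≤ 4 * al A i ∧ 10 * al A i ≤ 13 * s)

/-- **HL** (60 lines; uses `StHF`; many vertices with large `hh`).  PROOF.  Part `0`, `α = al A 1`, `β = al A 2` (`0 + 1 = 1`, `0 + 2 = 2`).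
`∑_a hh = q (α + β) - 2 α β = α (q - β) + β (q - α) ≥ 0.35 q (α + β) ≥ 0.525 s q` (`q ≥ 2 s`, `α, β ≤ 1.3 s ≤ 0.65 q`) and
`hh ≤ α + β ≤ 2.6 s`.  If `k` is the number of the `a` with `10 hh ≥ s`: `∑ hh ≤ 2.6 s k + (s/10) q`, so `k ≥ 0.16 q`. -/
def StHL : Prop := ∀ (q s : ℕ) (S : TS q) (A : Finset (V q)), 1 ≤ s → 2 * s ≤ q →
  (∀ i, 3 * s ≤ 4 * al A i ∧ 10 * al A i ≤ 13 * s) →
  q ≤ 10 * cnt (fun a : Fin q => s ≤ 10 * hh S A 0 a)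

/-- **I** (150 lines; uses `StHF`, `StWin`, `StAl`, `StHL`; balanced case).  PROOF.  `c1 = 2^(-100)`.  `1 ≤ r ≤ c1 sqrt s` gives `s ≥ 2^200`, `100 r ≤ s`.
If every `ε` has a splitting, then every `ε` lies in one of the sets `M(A,N)`: `A : Finset (V q)` with the bounds of `StAl` (5), `N : Finset (Fin q)` with
`20 |N| ≥ q`, `s ≤ 10 hh S A 0 a` for `a ∈ N` and, with `U a = A`, `m a = s` if `(0,a) ∈ A` and `U a = Aᶜ`, `m a = t` otherwise: for all `a ∈ N`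
`m a ≤ o S ε (U a) (0,a) < m a + (60 r + 1)`.  (`N` = the `a` with `10 hh ≥ s`, at least `q/10` by `StHL`, which satisfy the window condition, all but
`q/20` by `StAl`.)  By `StWin` with `h0 = ⌈s/10⌉` (`hh S Aᶜ = hh S A` by `StHF`), `w = 60 r + 1`: `|M(A,N)| ≤ 2^(q*q) β^|N|`, `β = (60 r + 1)/sqrt(s/10) ≤ 61 r * 4 / sqrt s ≤ 2^(-92)`, so
`|M(A,N)| ≤ 2^(q*q) 2^(-92 q/20)`, `2^(92 q / 20) ≥ 2^(4.5 q)`; there are at most `2^(3q) 2^q` pairs, so the sum is `< 2^(q*q)`: contradiction. -/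
def StI : Prop := ∃ c1 : ℝ, 0 < c1 ∧ ∀ (q s t r : ℕ) (S : TS q), q = s + t + r → 1 ≤ s → s ≤ t → 1 ≤ r →
  (r : ℝ) ≤ c1 * Real.sqrt s → ∃ ε : Co q, ¬ Spl S ε s t

/-- **WL** (60 lines; uses `StHF`; many vertices with small `ff` outside of `A`).  PROOF.  `k` = number of the `a` with `s < 2 ff`: `s k ≤ 2 ∑ ff = 2 al A (i+1) al A (i+2) ≤
2 (|A|/2)² ≤ 8 s²`, so `k ≤ 8 s` (`al A (i+1) + al A (i+2) ≤ |A| ≤ 4 s`); `al A i ≤ 4 s`; so at most `12 s ≤ q/2` indices are excluded.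
(`|A|` is the sum of the `al A i`: hypothesis in the form `al A 0 + al A 1 + al A 2 ≤ 4 s`.) -/
def StWL : Prop := ∀ (q s : ℕ) (S : TS q) (A : Finset (V q)) (i : Fin 3), 1 ≤ s → 24 * s ≤ q →
  al A 0 + al A 1 + al A 2 ≤ 4 * s → q ≤ 2 * cnt (fun a : Fin q => (i, a) ∉ A ∧ 2 * ff S A i a ≤ s)

/-- **Nm2** (100 lines; real numbers).  PROOF.  `ρ = t/s ≥ K0`, `q ≤ 3 t` (as `r ≤ s`).  `c2 = 1/(128 C0)`.  `(r+1)² ≤ 4 r² ≤ 4 c2² s log(2ρ)`, so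
`p := exp(-C0 (1 + (r+1)²/s)) ≥ exp(-C0) (2ρ)^(-4 C0 c2²) ≥ exp(-C0) (2ρ)^(-1/4)`.  `(1 - p)^n ≤ exp(-p n) ≤ exp(-p q/2)` and `q ≥ t = ρ s`,
`(e 3q/(4s))^(4s) ≤ (7ρ)^(4s)`; so it is enough that `log 3 + 4 s log(7ρ) < s ρ exp(-C0) (2ρ)^(-1/4)/2`, which follows from
`log 3 + 4 log(7ρ) < exp(-C0) ρ^(3/4)/4`, true for all `ρ ≥ K0` (`Real.isLittleO_log_rpow_atTop` or `log y ≤ y^(1/4)·const`:
`log ρ ≤ 2 ρ^(1/2)`, so `K0` can be explicit). -/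
def StNm2 : Prop := ∀ C0 : ℝ, 1 ≤ C0 → ∃ (K0 : ℕ) (c2 : ℝ), 24 ≤ K0 ∧ 0 < c2 ∧ c2 ≤ 1 / 128 ∧
  ∀ (q s t r n : ℕ), q = s + t + r → 1 ≤ s → K0 * s ≤ t → 1 ≤ r → (r : ℝ) ≤ c2 * s →
  (r : ℝ) ≤ c2 * Real.sqrt (s * Real.log (2 * t / s)) → q ≤ 2 * n →
  3 * ((Real.exp 1 * (3 * q) / (4 * s)) ^ (4 * s) *
    (1 - Real.exp (-(C0 * (1 + ((r + 1 : ℕ) : ℝ) ^ 2 / s)))) ^ n) < 1

/-- **II** (150 lines; uses `StTail`, `StChs`, `StDg`, `StSum`, `StHF`, `StTl`, `StAl`, `StWL`, `StNm2`; unbalanced case).  PROOF.  `C0` from `StTail`, `K0`, `c2` from `StNm2`.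
If every `ε` has a splitting `A`, then (`StAl`) `3 s ≤ |A| ≤ 3 s + 3 r ≤ 4 s`.  Let `i` be such that `al A i` is minimal (then `al A (i+1) + al A (i+2) ≥ 2 s`).
For `(i,a) ∉ A`: `t ≤ o S ε Aᶜ (i,a) = q - o S ε A (i,a)` (`StDg`), so `o S ε A (i,a) ≤ s + r`.  So `ε` lies in `M(A,i)` = the set of the `ε` with `o S ε A (i,a) ≤ s + r` for all
`a ∈ W`, where `W = W(A,i)` is the set of the `a` with `(i,a) ∉ A`, `2 ff S A i a ≤ s`, `|W| ≥ q/2` (`StWL`, `24 s ≤ K0 s ≤ q`).  For `a ∈ W` `hh = al + al - 2 ff ≥ 2 s - s = s ≥ 64 (r + 1)`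
(`r + 1 ≤ 2 r ≤ 2 c2 s ≤ s/64`).  `StTl` with `k = s + r`, `x = r + 1`, `h0 = s`: `2 (k + 1) = 2 s + 2 (r+1) ≤ 2 ff + hh + 2 x`.  So `|M(A,i)| ≤ 2^(q*q) (1-p)^|W|`.  The number of
the `A` with `|A| ≤ 4 s` is at most `(e 3q/(4s))^(4s)` (`StChs`, `Fintype.card (V q) = 3 q ≥ 4 s`), and three `i`: the sum is `< 2^(q*q)` by `StNm2`, contradiction. -/
def StII : Prop := ∃ (K0 : ℕ) (c2 : ℝ), 1 ≤ K0 ∧ 0 < c2 ∧ ∀ (q s t r : ℕ) (S : TS q), q = s + t + r →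
  1 ≤ s → K0 * s ≤ t → 1 ≤ r → (r : ℝ) ≤ c2 * s →
  (r : ℝ) ≤ c2 * Real.sqrt (s * Real.log (2 * t / s)) → ∃ ε : Co q, ¬ Spl S ε s t

/-- **Kn** (40 lines; the complete digraph).  PROOF.  `n = s + t + 1`, `Adj v w` iff `v ≠ w`; all outdegrees are `s + t`.  A splitting `A` has
`|A| ≥ s + 1`, `|Aᶜ| ≥ t + 1`. -/
def StKn : Prop := ∀ s t : ℕ, 1 ≤ s → 1 ≤ t → Bad s t (s + t)

/-- **Fin** (80 lines; uses `StTSx`, `StTr`, `StI`, `StII`, `StKn`; the theorem).  PROOF.  `c = min(c2, c1/sqrt(log(2 K0)), 1)`, `M = min(s, sqrt(s log(2t/s)))`, `r = ⌊c M⌋`.  `r = 0`: `StKn`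
(`c M < 1`).  `r ≥ 1`, `K0 s ≤ t`: `StII`.  `r ≥ 1`, `t < K0 s`: `r ≤ c sqrt(s log(2t/s)) ≤ c sqrt(log(2 K0)) sqrt s ≤ c1 sqrt s`: `StI`.  In the last two cases `m = q = s + t + r`, `c M < r + 1`. -/
def StFin : Prop := ∃ c : ℝ, 0 < c ∧ ∀ s t : ℕ, 1 ≤ s → s ≤ t → ∃ m : ℕ, Bad s t m ∧
  (s + t + c * min (s : ℝ) (Real.sqrt (s * Real.log (2 * t / s))) : ℝ) ≤ m + 1

end Pool.Agent.SplitLB
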