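import Pool.Agent.Lib.MP_7cd5ec_co.LB.Spec

/-! Package LB, module Tr: transfer to `Fin n`. -/

set_option autoImplicit false

namespace Pool.Agent.SplitLB

open Finset

private theorem Tr_ncard {q m : ℕ} (e : V q ≃ Fin m) (P : V q → Prop) (Q : Fin m → Prop)
    (h : ∀ w, Q w ↔ P (e.symm w)) : {w : Fin m | Q w}.ncard = cnt P := by
  classical
  rw [Set.ncard_eq_toFinset_card', Set.toFinset_ofPred, ← cnt_eq, cnt_congr h]
  exact cnt_equiv e.symm P

theorem tTr (hDg : StDg) : StTr := by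
  classical
  intro q S ε s t hq hS
  obtain ⟨h1, h2, h3, -⟩ := hDg q S ε
  obtain ⟨e⟩ : Nonempty (V q ≃ Fin (3 * q)) := ⟨finProdFinEquiv⟩
  refine ⟨3 * q, fun a b => E S ε (e.symm a) (e.symm b), by omega,
    fun v => h1 _, fun v => ?_, ?_⟩
  · rw [Tr_ncard e (E S ε (e.symm v)) _ fun w => Iff.rfl, h2]
  · rintro ⟨A, ⟨a, ha⟩, ⟨b, hb⟩, hs, ht⟩
    refine hS ⟨univ.filter fun v => e v ∈ A, ⟨e.symm a, ?_⟩,
      ⟨e.symm b, ?_⟩, fun v hv => ?_, fun v hv => ?_⟩
    · simpa using ha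
    · simpa using hb
    · rw [mem_filter] at hv
      refine (hs _ hv.2).trans (le_of_eq ?_)
      rw [← h3, Tr_ncard e (fun w => w ∈ univ.filter (fun v => e v ∈ A) ∧ E S ε v w) _
        fun w => ?_]
      simp
    · rw [mem_compl, mem_filter, not_and] at hv
      refine (ht _ (hv (mem_univ v))).trans (le_of_eq ?_)
      rw [← h3, Tr_ncard e (fun w => w ∈ (univ.filter (fun v => e v ∈ A))ᶜ ∧ E S ε v w) _
        fun w => ?_]
      simp

end Pool.Agent.SplitLB
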